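import Pool.Agent.Lib.MP_533d58_pr.Ginibre

/-!
Finite graphs: edge by edge comparison of quenched averages.
-/

namespace Pool.Agent.Lib.MP_533d58_pr

open MeasureTheory Filter Topology Real Function
open scoped NNReal

noncomputable section

lemma le_of_update {E α : Type*} [Fintype E] [DecidableEq E] (F : (E → α) → ℝ) (x y : E → α)
    (h : ∀ e, ∀ z : E → α, (∀ f, z f = x f ∨ z f = y f) →
      F (update z e (x e)) ≤ F (update z e (y e))) : F x ≤ F y := by
  have key : ∀ S : Finset E, F x ≤ F (S.piecewise y x) := by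
    intro S
    induction S using Finset.induction_on with
    | empty => simp
    | insert j S hj ih =>
      rw [Finset.piecewise_insert]
      refine ih.trans (le_of_eq_of_le ?_ (h j (S.piecewise y x) fun f => ?_))
      · congr 1
        rw [← Finset.piecewise_eq_of_notMem S y x hj, update_eq_self]
      · by_cases hf : f ∈ S
        · right; exact Finset.piecewise_eq_of_mem _ _ _ hf
        · left; exact Finset.piecewise_eq_of_notMem _ _ _ hf
  simpa using key Finset.univ

lemma two_mul_sum_bool {E : Type*} [Fintype E] [DecidableEq E] (G : (E → Bool) → ℝ) (e : E) :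
    2 * ∑ η, G η = ∑ η : E → Bool, (G (update η e true) + G (update η e false)) := by
  have hinv : Involutive (fun η : E → Bool => update η e (!η e)) := by
    intro η
    simp
  have h1 : ∑ η, G η = ∑ η : E → Bool, G (update η e (!η e)) :=
    (Equiv.sum_comp hinv.toPerm G).symm
  rw [two_mul]
  nth_rewrite 2 [h1]
  rw [← Finset.sum_add_distrib]
  refine Finset.sum_congr rfl fun η _ => ?_
  cases h : η e
  · have : update η e false = η := by rw [← h, update_eq_self]
    simp [this, add_comm]
  · have : update η e true = η := by rw [← h, update_eq_self]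
    simp [this]

variable {V E : Type} [Fintype V] [Fintype E] [DecidableEq E]

/-- The Gibbs weight of a finite graph with edge weights `W`. -/
def wt (s t : E → V) (W : E → C(T, ℝ)) : C(V → T, ℝ) := ∏ e, (W e).comp (gr (s e) (t e))

/-- The weight of all edges but one. -/
def rest (s t : E → V) (W : E → C(T, ℝ)) (e : E) : C(V → T, ℝ) :=
  ∏ f ∈ Finset.univ.erase e, (W f).comp (gr (s f) (t f))

/-- The two point function of a finite graph with edge weights `W`. -/
def corr (s t : E → V) (a b : V) (W : E → C(T, ℝ)) : ℝ :=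
  (∫ θ, (obs a b * wt s t W) θ) / ∫ θ, wt s t W θ

omit [Fintype V] in
lemma wt_update (s t : E → V) (W : E → C(T, ℝ)) (e : E) (v : C(T, ℝ)) :
    wt s t (update W e v) = rest s t W e * v.comp (gr (s e) (t e)) := by
  unfold wt rest
  rw [← Finset.prod_erase_mul _ _ (Finset.mem_univ e), update_self]
  congr 1
  refine Finset.prod_congr rfl fun f hf => ?_
  rw [update_of_ne (Finset.ne_of_mem_erase hf)]

lemma corr_update (s t : E → V) (a b : V) (W : E → C(T, ℝ)) (e : E) (v : C(T, ℝ)) :
    corr s t a b (update W e v) = ratio (rest s t W e) (s e) (t e) a b v := by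
  unfold corr ratio
  rw [wt_update, wInt_eq, wInt_eq, mul_assoc]

omit [Fintype V] in
lemma rest_pos (s t : E → V) {W : E → C(T, ℝ)} (hW : ∀ f x, 0 < W f x) (e : E) (θ : V → T) :
    0 < rest s t W e θ := by
  unfold rest
  rw [ContinuousMap.prod_apply]
  exact Finset.prod_pos fun f _ => hW f _

omit [Fintype V] [DecidableEq E] in
lemma wt_pos (s t : E → V) {W : E → C(T, ℝ)} (hW : ∀ f x, 0 < W f x) (θ : V → T) :
    0 < wt s t W θ := by
  unfold wt
  rw [ContinuousMap.prod_apply]
  exact Finset.prod_pos fun f _ => hW f _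

omit [Fintype V] in
lemma rest_gin (s t : E → V) {W : E → C(T, ℝ)} (hW : ∀ f, pair (W f) (W f) ∈ cone T) (e : E) :
    pair (rest s t W e) (rest s t W e) ∈ cone (V → T) := by
  have : pair (rest s t W e) (rest s t W e)
      = ∏ f ∈ Finset.univ.erase e, pull (gr (s f) (t f)) (pair (W f) (W f)) := by
    ext ⟨α, β⟩
    simp only [pair_apply, rest, ContinuousMap.prod_apply, ContinuousMap.comp_apply, gr_apply,
      pull_apply, ← Finset.prod_mul_distrib, Pi.sub_apply, Pi.add_apply]
    refine Finset.prod_congr rfl fun f _ => ?_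
    congr 2 <;> abel
  rw [this]
  exact (cone _).prod_mem fun f _ => pull_mem _ (hW f)

omit [DecidableEq E] in
lemma abs_corr_le (s t : E → V) (a b : V) {W : E → C(T, ℝ)} (hW : ∀ f x, 0 < W f x) :
    |corr s t a b W| ≤ 1 := by
  have hz := integral_pos_cm (wt_pos s t hW)
  unfold corr
  rw [abs_div, abs_of_pos hz, div_le_one hz]
  refine (abs_integral_le_integral_abs).trans ?_
  refine integral_mono (integrable_cm _ _).abs (integrable_cm _ _) fun θ => ?_
  simp only [ContinuousMap.mul_apply, obs_apply, abs_mul, abs_of_pos (wt_pos s t hW θ)]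
  exact mul_le_of_le_one_left (wt_pos s t hW θ).le (abs_cosT_le _)

lemma pair_one_mem : pair (1 : C(T, ℝ)) 1 ∈ cone T := by
  have : pair (1 : C(T, ℝ)) 1 = 1 := by ext z; simp
  rw [this]; exact (cone T).one_mem

/-- Opening edges increases the two point function. -/
lemma corr_mono {w : ℝ≥0 → C(T, ℝ)} (hw : Good w) (β : ℝ≥0) (s t : E → V) (a b : V)
    {η η' : E → Bool} (h : ∀ e, η e = true → η' e = true) :
    corr s t a b (fun e => if η e then w β else 1)
      ≤ corr s t a b (fun e => if η' e then w β else 1) := by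
  refine le_of_update (corr s t a b) _ _ fun e z hz => ?_
  have hz1 : ∀ f, z f = w β ∨ z f = 1 := fun f => by
    rcases hz f with h | h <;> rw [h] <;> split_ifs <;> simp
  have hpos : ∀ f x, 0 < z f x := fun f x => by
    rcases hz1 f with h | h <;> rw [h]
    · exact hw.pos β x
    · simp
  have hgin : ∀ f, pair (z f) (z f) ∈ cone T := fun f => by
    rcases hz1 f with h | h <;> rw [h]
    · exact hw.gin β
    · exact pair_one_mem
  rw [corr_update, corr_update]
  by_cases h1 : η e = true
  · simp [h1, h e h1]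
  · by_cases h2 : η' e = true
    · simp only [h1, h2, if_true]
      exact hw.mono0 β V _ (rest_gin s t hgin e) (rest_pos s t hpos e) _ _ _ _
    · simp [h1, h2]

/-- The quenched average when edge `e` is open with probability `(d e).1` and then has
weight `(d e).2`. -/
def avg (s t : E → V) (a b : V) (d : E → ℝ × C(T, ℝ)) : ℝ :=
  ∑ η : E → Bool, (∏ e, if η e then (d e).1 else 1 - (d e).1) *
    corr s t a b (fun e => if η e then (d e).2 else 1)

lemma two_mul_avg_update (s t : E → V) (a b : V) (d : E → ℝ × C(T, ℝ)) (e : E) (p : ℝ)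
    (v : C(T, ℝ)) :
    2 * avg s t a b (update d e (p, v))
      = ∑ η : E → Bool, (∏ f ∈ Finset.univ.erase e, if η f then (d f).1 else 1 - (d f).1) *
        (p * ratio (rest s t (fun f => if η f then (d f).2 else 1) e) (s e) (t e) a b v
          + (1 - p) * ratio (rest s t (fun f => if η f then (d f).2 else 1) e) (s e) (t e) a b 1) := by
  unfold avg
  rw [two_mul_sum_bool _ e]
  refine Finset.sum_congr rfl fun η _ => ?_
  have h1 : ∀ c : Bool, (∏ f, if update η e c f then (update d e (p, v) f).1
      else 1 - (update d e (p, v) f).1)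
      = (∏ f ∈ Finset.univ.erase e, if η f then (d f).1 else 1 - (d f).1) *
        (if c then p else 1 - p) := fun c => by
    rw [← Finset.prod_erase_mul _ _ (Finset.mem_univ e), update_self, update_self]
    congr 1
    refine Finset.prod_congr rfl fun f hf => ?_
    rw [update_of_ne (Finset.ne_of_mem_erase hf), update_of_ne (Finset.ne_of_mem_erase hf)]
  have h2 : ∀ c : Bool, (fun f => if update η e c f then (update d e (p, v) f).2 else 1)
      = update (fun f => if η f then (d f).2 else 1) e (if c then v else 1) := fun c => by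
    funext f
    by_cases hf : f = e
    · subst hf; simp
    · simp [update_of_ne hf]
  rw [h1, h1, h2, h2, corr_update, corr_update]
  simp only [if_true, Bool.false_eq_true, if_false]
  ring

lemma avg_le_avg (s t : E → V) (a b : V) {p₁ p₂ : ℝ} {w₁ w₂ : C(T, ℝ)}
    (hp₁ : 0 ≤ p₁) (hp₁' : p₁ ≤ 1) (hp₂ : 0 ≤ p₂) (hp₂' : p₂ ≤ 1)
    (pos₁ : ∀ x, 0 < w₁ x) (pos₂ : ∀ x, 0 < w₂ x)
    (gin₁ : pair w₁ w₁ ∈ cone T) (gin₂ : pair w₂ w₂ ∈ cone T)
    (h : ∀ R : C(V → T, ℝ), pair R R ∈ cone (V → T) → (∀ θ, 0 < R θ) → ∀ s t : V,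
      p₁ * ratio R s t a b w₁ + (1 - p₁) * ratio R s t a b 1
        ≤ p₂ * ratio R s t a b w₂ + (1 - p₂) * ratio R s t a b 1) :
    avg s t a b (fun _ => (p₁, w₁)) ≤ avg s t a b (fun _ => (p₂, w₂)) := by
  refine le_of_update (avg s t a b) _ _ fun e z hz => ?_
  have : 2 * avg s t a b (update z e (p₁, w₁)) ≤ 2 * avg s t a b (update z e (p₂, w₂)) := by
    rw [two_mul_avg_update, two_mul_avg_update]
    refine Finset.sum_le_sum fun η _ => mul_le_mul_of_nonneg_left (h _ ?_ ?_ _ _) ?_
    · refine rest_gin s t (fun f => ?_) e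
      split_ifs
      · rcases hz f with h | h <;> rw [h]
        · exact gin₁
        · exact gin₂
      · exact pair_one_mem
    · refine rest_pos s t (fun f x => ?_) e
      split_ifs
      · rcases hz f with h | h <;> rw [h]
        · exact pos₁ x
        · exact pos₂ x
      · simp
    · refine Finset.prod_nonneg fun f _ => ?_
      rcases hz f with h | h <;> rw [h] <;> split_ifs <;> simp only <;> linarith
  linarith

lemma avg_mono_p {w : ℝ≥0 → C(T, ℝ)} (hw : Good w) (β : ℝ≥0) (s t : E → V) (a b : V) {p p' : ℝ}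
    (hp : 0 ≤ p) (hpp : p ≤ p') (hp' : p' ≤ 1) :
    avg s t a b (fun _ => (p, w β)) ≤ avg s t a b (fun _ => (p', w β)) := by
  refine avg_le_avg s t a b hp (hpp.trans hp') (hp.trans hpp) hp' (hw.pos β) (hw.pos β)
    (hw.gin β) (hw.gin β) fun R hR hpos s t => ?_
  have := hw.mono0 β V R hR hpos s t a b
  nlinarith

lemma avg_key {w : ℝ≥0 → C(T, ℝ)} (hw : Good w) {β₁ β₂ : ℝ≥0} (h : β₁ < β₂) :
    ∃ C : ℝ, 0 < C ∧ ∀ (V E : Type) [Fintype V] [Fintype E] [DecidableEq E] (s t : E → V)
      (a b : V) (p p' : ℝ), 0 ≤ p → p ≤ p' → p' ≤ 1 → (p' - p) * C ≤ p →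
      avg s t a b (fun _ => (p', w β₁)) ≤ avg s t a b (fun _ => (p, w β₂)) := by
  obtain ⟨C, hC, hkey⟩ := hw.key β₁ β₂ h
  refine ⟨C, hC, fun V E _ _ _ s t a b p p' hp hpp hp' hc => ?_⟩
  refine avg_le_avg s t a b (hp.trans hpp) hp' hp (hpp.trans hp') (hw.pos β₁) (hw.pos β₂)
    (hw.gin β₁) (hw.gin β₂) fun R hR hpos s t => ?_
  have h0 := hw.mono0 β₁ V R hR hpos s t a b
  have h1 := hkey V R hR hpos s t a b
  set a0 := ratio R s t a b 1
  set a1 := ratio R s t a b (w β₁)
  set a2 := ratio R s t a b (w β₂)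
  have h2 : 0 ≤ a2 - a1 := by
    by_contra hh
    push Not at hh
    nlinarith
  have h3 : (p' - p) * (a1 - a0) ≤ (p' - p) * (C * (a2 - a1)) :=
    mul_le_mul_of_nonneg_left h1 (by linarith)
  have h4 : (p' - p) * C * (a2 - a1) ≤ p * (a2 - a1) := mul_le_mul_of_nonneg_right hc h2
  nlinarith

/-- Extra isolated vertices do not change ratios of integrals. -/
lemma exists_integral_comp {V' : Type} [Fintype V'] {ι : V → V'} (hι : Injective ι) :
    ∃ c : ℝ, 0 < c ∧ ∀ F : C(V → T, ℝ), ∫ θ : V' → T, F (θ ∘ ι) = c * ∫ θ, F θ := by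
  let f : (V' → T) →+ (V → T) :=
    { toFun := fun θ => θ ∘ ι
      map_zero' := rfl
      map_add' := fun _ _ => rfl }
  have hc : Continuous f := by
    change Continuous fun θ : V' → T => θ ∘ ι
    fun_prop
  have hs : Surjective f := hι.surjective_comp_right
  have a0 : (volume : Measure (V → T)) Set.univ ≠ 0 :=
    (isOpen_univ.measure_pos _ Set.univ_nonempty).ne'
  have a1 : (volume : Measure (V → T)) Set.univ ≠ ⊤ := measure_ne_top _ _
  have b0 : (volume : Measure (V' → T)) Set.univ ≠ 0 :=
    (isOpen_univ.measure_pos _ Set.univ_nonempty).ne'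
  have b1 : (volume : Measure (V' → T)) Set.univ ≠ ⊤ := measure_ne_top _ _
  set k := (volume : Measure (V' → T)) Set.univ / (volume : Measure (V → T)) Set.univ with hk
  have k0 : k ≠ 0 := ENNReal.div_ne_zero.2 ⟨b0, a1⟩
  have k1 : k ≠ ⊤ := ENNReal.div_ne_top b1 a0
  have : (k • (volume : Measure (V → T))).IsAddHaarMeasure :=
    Measure.IsAddHaarMeasure.smul _ k0 k1
  have hmp : MeasurePreserving f volume (k • (volume : Measure (V → T))) := by
    refine f.measurePreserving hc hs ?_
    rw [Measure.smul_apply, smul_eq_mul, hk, ENNReal.div_mul_cancel a0 a1]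
  refine ⟨k.toReal, ENNReal.toReal_pos k0 k1, fun F => ?_⟩
  have := integral_map (μ := (volume : Measure (V' → T))) hmp.measurable.aemeasurable
    (f := fun θ => F θ) F.continuous.aestronglyMeasurable
  rw [hmp.map_eq, integral_smul_measure, smul_eq_mul] at this
  exact this.symm

end

end Pool.Agent.Lib.MP_533d58_pr
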