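import Pool.Agent.Lib.MP_533d58_pr.Defs
import Pool.Agent.Lib.MP_533d58_pr.Finite

/-!
From the finite graph inequalities to the continuity of the critical inverse temperature.
-/

namespace Pool.Agent.Lib.MP_533d58_pr

open MeasureTheory Filter Topology Real Function
open scoped NNReal ENNReal unitInterval

noncomputable section

lemma mem_box {L : ℕ} {x : Site} :
    x ∈ box L ↔ (-(L : ℤ) ≤ x.1 ∧ x.1 ≤ L) ∧ (-(L : ℤ) ≤ x.2 ∧ x.2 ≤ L) := by
  simp [box, Finset.mem_product]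

lemma zero_mem_box (L : ℕ) : (0 : Site) ∈ box L := by
  simp [mem_box]

lemma box_mono {L M : ℕ} (h : L ≤ M) {x : Site} (hx : x ∈ box L) : x ∈ box M := by
  rw [mem_box] at hx ⊢
  have : (L : ℤ) ≤ M := by exact_mod_cast h
  omega

lemma mem_boxEdges {L : ℕ} {e : Edge} : e ∈ boxEdges L ↔ e.1 ∈ box L ∧ ehead e ∈ box L := by
  simp [boxEdges, Finset.mem_product]

lemma boxEdges_mono {L M : ℕ} (h : L ≤ M) {e : Edge} (he : e ∈ boxEdges L) : e ∈ boxEdges M := by
  rw [mem_boxEdges] at he ⊢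
  exact ⟨box_mono h he.1, box_mono h he.2⟩

lemma exists_mem_box (x : Site) : ∃ L, x ∈ box L := by
  refine ⟨x.1.natAbs + x.2.natAbs, ?_⟩
  rw [mem_box]
  omega

/-- first endpoint -/
def sE (L : ℕ) (e : boxEdges L) : box L := ⟨e.1.1, (mem_boxEdges.1 e.2).1⟩

/-- second endpoint -/
def tE (L : ℕ) (e : boxEdges L) : box L := ⟨ehead e.1, (mem_boxEdges.1 e.2).2⟩

/-- The finite volume two-point function on the torus. -/
def cL (L : ℕ) (W : C(T, ℝ)) (x : Site) (hx : x ∈ box L) (η : boxEdges L → Bool) : ℝ :=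
  corr (sE L) (tE L) ⟨0, zero_mem_box L⟩ ⟨x, hx⟩ (fun e => if η e then W else 1)

lemma integral_cube (L : ℕ) (F : C(box L → T, ℝ)) :
    ∫ θ in cube L, F (fun i => ((θ i : ℝ) : T)) = ∫ θ, F θ := by
  have h := measurePreserving_pi (fun _ : box L => (volume : Measure ℝ).restrict (Set.Ioc 0 (0 + 2 * π)))
    (fun _ : box L => (volume : Measure T)) (fun _ => AddCircle.measurePreserving_mk (2 * π) 0)
  have h1 : (volume : Measure (box L → ℝ)).restrict (cube L)
      = Measure.pi (fun _ : box L => (volume : Measure ℝ).restrict (Set.Ioc 0 (0 + 2 * π))) := by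
    unfold cube
    rw [volume_pi, Measure.restrict_pi_pi]
    congr 1
    funext _
    rw [zero_add]
    exact Measure.restrict_congr_set Ico_ae_eq_Ioc
  rw [h1]
  have := integral_map (μ := Measure.pi
    (fun _ : box L => (volume : Measure ℝ).restrict (Set.Ioc 0 (0 + 2 * π))))
    h.measurable.aemeasurable (f := fun θ => F θ) F.continuous.aestronglyMeasurable
  rw [h.map_eq] at this
  exact this.symm

lemma density_eq {v : ℝ → ℝ} {W : C(T, ℝ)} (hv : ∀ r : ℝ, W (r : T) = v r) (ω : Edge → Bool)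
    (L : ℕ) (θ : box L → ℝ) :
    density v ω L θ = wt (sE L) (tE L) (fun e : boxEdges L => if ω e then W else 1)
      (fun i => ((θ i : ℝ) : T)) := by
  unfold density wt
  rw [Finset.prod_filter, ContinuousMap.prod_apply, ← Finset.prod_coe_sort]
  refine Finset.prod_congr rfl fun e _ => ?_
  have h1 := (mem_boxEdges.1 e.2).1
  have h2 := (mem_boxEdges.1 e.2).2
  by_cases h : ω e = true
  · simp only [angle, dif_pos h1, dif_pos h2, ContinuousMap.comp_apply, gr_apply,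
      ← QuotientAddGroup.mk_sub, hv, sE, tE, if_pos h]
  · simp [h]

lemma twoPointFin_eq {v : ℝ → ℝ} {W : C(T, ℝ)} (hv : ∀ r : ℝ, W (r : T) = v r) (ω : Edge → Bool)
    (L : ℕ) {x : Site} (hx : x ∈ box L) :
    twoPointFin v ω L x = cL L W x hx ((boxEdges L).restrict ω) := by
  unfold twoPointFin cL corr
  rw [← integral_cube, ← integral_cube]
  congr 1
  · refine integral_congr_ae (Eventually.of_forall fun θ => ?_)
    simp only [density_eq hv, ContinuousMap.mul_apply, obs_apply, angle, dif_pos hx,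
      dif_pos (zero_mem_box L), ← QuotientAddGroup.mk_sub, cosT_coe]
    rfl
  · refine integral_congr_ae (Eventually.of_forall fun θ => ?_)
    simp only [density_eq hv]
    rfl

lemma cL_enlarge {L M : ℕ} (h : L ≤ M) (W : C(T, ℝ)) {x : Site} (hx : x ∈ box L)
    (ω : Edge → Bool) :
    cL L W x hx ((boxEdges L).restrict ω)
      = cL M W x (box_mono h hx) (fun e => ω e && decide (e.1 ∈ boxEdges L)) := by
  let ι : box L → box M := fun y => ⟨y.1, box_mono h y.2⟩
  have hι : Injective ι := fun y z hyz => Subtype.ext (congrArg (fun u : box M => u.1) hyz)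
  obtain ⟨c, hc, hF⟩ := exists_integral_comp hι
  have hwt : ∀ θ : box M → T,
      wt (sE L) (tE L) (fun e : boxEdges L => if (boxEdges L).restrict ω e then W else 1) (θ ∘ ι)
      = wt (sE M) (tE M) (fun e : boxEdges M =>
        if (ω e && decide (e.1 ∈ boxEdges L)) then W else 1) θ := fun θ => by
    unfold wt
    rw [ContinuousMap.prod_apply, ContinuousMap.prod_apply]
    refine Fintype.prod_of_injective (fun e : boxEdges L => (⟨e.1, boxEdges_mono h e.2⟩ : boxEdges M))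
      (fun y z hyz => Subtype.ext (congrArg (fun u : boxEdges M => u.1) hyz)) _ _ ?_ ?_
    · intro e he
      have : e.1 ∉ boxEdges L := fun h' => he ⟨⟨e.1, h'⟩, rfl⟩
      simp [this]
    · intro e
      simp only [Finset.restrict, Finset.coe_mem, decide_true, Bool.and_true,
        ContinuousMap.comp_apply, gr_apply]
      rfl
  unfold cL corr
  have e1 := hF (obs ⟨0, zero_mem_box L⟩ ⟨x, hx⟩ *
    wt (sE L) (tE L) (fun e : boxEdges L => if (boxEdges L).restrict ω e then W else 1))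
  have e2 := hF (wt (sE L) (tE L) (fun e : boxEdges L => if (boxEdges L).restrict ω e then W else 1))
  simp only [ContinuousMap.mul_apply, hwt] at e1 e2 ⊢
  rw [e2, ← mul_div_mul_left _ _ hc.ne', ← e1]
  rfl

section general

variable {w : ℝ≥0 → C(T, ℝ)} {v : ℝ → ℝ → ℝ}

lemma twoPointFin_mono (hw : Good w) (hv : ∀ (β : ℝ≥0) (r : ℝ), w β (r : T) = v β r) (β : ℝ≥0)
    (ω : Edge → Bool) {L M : ℕ} (h : L ≤ M) {x : Site} (hx : x ∈ box L) :
    twoPointFin (v β) ω L x ≤ twoPointFin (v β) ω M x := by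
  rw [twoPointFin_eq (hv β) ω L hx, twoPointFin_eq (hv β) ω M (box_mono h hx), cL_enlarge h]
  refine corr_mono hw β _ _ _ _ fun e he => ?_
  simp only [Bool.and_eq_true] at he
  exact he.1

lemma abs_cL_le (hw : Good w) (β : ℝ≥0) (L : ℕ) {x : Site} (hx : x ∈ box L)
    (η : boxEdges L → Bool) : |cL L (w β) x hx η| ≤ 1 := by
  refine abs_corr_le _ _ _ _ fun f y => ?_
  split_ifs
  · exact hw.pos β y
  · simp

lemma tendsto_twoPointFin (hw : Good w) (hv : ∀ (β : ℝ≥0) (r : ℝ), w β (r : T) = v β r) (β : ℝ≥0)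
    (ω : Edge → Bool) (x : Site) :
    Tendsto (fun L => twoPointFin (v β) ω L x) atTop (𝓝 (twoPoint (v β) ω x)) := by
  obtain ⟨L₀, hL₀⟩ := exists_mem_box x
  have hmono : Monotone fun n => twoPointFin (v β) ω (n + L₀) x := fun n m hnm =>
    twoPointFin_mono hw hv β ω (by omega) (box_mono (by omega) hL₀)
  have hbdd : BddAbove (Set.range fun n => twoPointFin (v β) ω (n + L₀) x) := by
    refine ⟨1, ?_⟩
    rintro _ ⟨n, rfl⟩
    simp only
    rw [twoPointFin_eq (hv β) ω _ (box_mono (by omega) hL₀)]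
    exact (le_abs_self _).trans (abs_cL_le hw β _ _ _)
  have h1 := tendsto_atTop_ciSup hmono hbdd
  have h2 := (tendsto_add_atTop_iff_nat (f := fun L => twoPointFin (v β) ω L x) L₀).1 h1
  unfold twoPoint
  rw [h2.limUnder_eq]
  exact h2

instance (p : I) : IsProbabilityMeasure (perc p) := by
  unfold perc; infer_instance

lemma integral_cL (W : C(T, ℝ)) (p : I) (L : ℕ) {x : Site} (hx : x ∈ box L) :
    ∫ ω, cL L W x hx ((boxEdges L).restrict ω) ∂perc p
      = avg (sE L) (tE L) ⟨0, zero_mem_box L⟩ ⟨x, hx⟩ (fun _ => ((p : ℝ), W)) := by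
  have hm : Measurable (cL L W x hx) := measurable_of_finite _
  rw [← integral_map (Finset.measurable_restrict _).aemeasurable hm.aestronglyMeasurable]
  unfold perc
  rw [Measure.infinitePi_map_restrict, integral_fintype Integrable.of_finite]
  unfold avg
  refine Finset.sum_congr rfl fun η _ => ?_
  rw [smul_eq_mul]
  congr 1
  rw [measureReal_def, Measure.pi_singleton, ENNReal.toReal_prod]
  refine Finset.prod_congr rfl fun e _ => ?_
  rw [← measureReal_def]
  cases η e <;> simp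

lemma tendsto_avg (hw : Good w) (hv : ∀ (β : ℝ≥0) (r : ℝ), w β (r : T) = v β r) (β : ℝ≥0)
    (p : I) {x : Site} {L₀ : ℕ} (hL₀ : x ∈ box L₀) :
    Tendsto (fun n => avg (sE (n + L₀)) (tE (n + L₀)) ⟨0, zero_mem_box _⟩
      ⟨x, box_mono (Nat.le_add_left _ _) hL₀⟩ (fun _ => ((p : ℝ), w β))) atTop
      (𝓝 (avgTwoPoint (v β) p x)) := by
  simp_rw [← integral_cL]
  unfold avgTwoPoint
  refine tendsto_integral_of_dominated_convergence (fun _ => (1 : ℝ)) (fun n => ?_)
    (integrable_const _) (fun n => Eventually.of_forall fun ω => abs_cL_le hw β _ _ _)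
    (Eventually.of_forall fun ω => ?_)
  · exact ((measurable_of_finite (cL (n + L₀) (w β) x (box_mono (Nat.le_add_left _ _) hL₀))).comp
      (Finset.measurable_restrict (boxEdges (n + L₀)))).aestronglyMeasurable
  · simp_rw [← twoPointFin_eq (hv β)]
    exact (tendsto_add_atTop_iff_nat (f := fun L => twoPointFin (v β) ω L x) L₀).2
      (tendsto_twoPointFin hw hv β ω x)

lemma avgTwoPoint_mono (hw : Good w) (hv : ∀ (β : ℝ≥0) (r : ℝ), w β (r : T) = v β r) (β : ℝ≥0)
    {p p' : I} (h : p ≤ p') (x : Site) : avgTwoPoint (v β) p x ≤ avgTwoPoint (v β) p' x := by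
  obtain ⟨L₀, hL₀⟩ := exists_mem_box x
  exact le_of_tendsto_of_tendsto' (tendsto_avg hw hv β p hL₀) (tendsto_avg hw hv β p' hL₀)
    fun n => avg_mono_p hw β _ _ _ _ p.2.1 h p'.2.2

lemma avgTwoPoint_key (hw : Good w) (hv : ∀ (β : ℝ≥0) (r : ℝ), w β (r : T) = v β r)
    {β₁ β₂ : ℝ≥0} (h : β₁ < β₂) : ∃ C : ℝ, 0 < C ∧ ∀ p p' : I, p ≤ p' → ((p' : ℝ) - p) * C ≤ p →
      ∀ x, avgTwoPoint (v β₁) p' x ≤ avgTwoPoint (v β₂) p x := by
  obtain ⟨C, hC, hk⟩ := avg_key hw h
  refine ⟨C, hC, fun p p' hpp hc x => ?_⟩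
  obtain ⟨L₀, hL₀⟩ := exists_mem_box x
  exact le_of_tendsto_of_tendsto' (tendsto_avg hw hv β₁ p' hL₀) (tendsto_avg hw hv β₂ p hL₀)
    fun n => hk _ _ _ _ _ _ _ _ p.2.1 hpp p'.2.2 hc

lemma PolyDecay.mono {f g : Site → ℝ} (hf : PolyDecay f) (h : ∀ x, f x ≤ g x) : PolyDecay g := by
  obtain ⟨c, C, hc, hC, hf⟩ := hf
  exact ⟨c, C, hc, hC, fun x hx => (hf x hx).trans (h x)⟩

lemma poly_mono_beta (hw : Good w) (hv : ∀ (β : ℝ≥0) (r : ℝ), w β (r : T) = v β r)
    {β₁ β₂ : ℝ≥0} (h : β₁ < β₂) (p : I) (hp : PolyDecay (avgTwoPoint (v β₁) p)) :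
    PolyDecay (avgTwoPoint (v β₂) p) := by
  obtain ⟨C, _, hk⟩ := avgTwoPoint_key hw hv h
  exact hp.mono (hk p p le_rfl (by simpa using p.2.1))

lemma poly_eventually (hw : Good w) (hv : ∀ (β : ℝ≥0) (r : ℝ), w β (r : T) = v β r)
    {β₁ β₂ : ℝ≥0} (h : β₁ < β₂) {p₀ : I} (hp₀ : 0 < (p₀ : ℝ)) :
    ∀ᶠ p in 𝓝 p₀, (PolyDecay (avgTwoPoint (v β₁) p) → PolyDecay (avgTwoPoint (v β₂) p₀)) ∧
      (PolyDecay (avgTwoPoint (v β₁) p₀) → PolyDecay (avgTwoPoint (v β₂) p)) := by
  obtain ⟨C, hC, hk⟩ := avgTwoPoint_key hw hv h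
  have hε : 0 < (p₀ : ℝ) / (C + 1) := by positivity
  filter_upwards [Metric.ball_mem_nhds p₀ hε] with p hp
  rw [Metric.mem_ball, Subtype.dist_eq, Real.dist_eq, lt_div_iff₀ (by positivity)] at hp
  rcases le_total p p₀ with hle | hle
  · have hle' : (p : ℝ) ≤ p₀ := hle
    rw [abs_of_nonpos (by linarith)] at hp
    refine ⟨fun h1 => poly_mono_beta hw hv h p₀ (h1.mono (avgTwoPoint_mono hw hv β₁ hle)),
      fun h1 => h1.mono (hk p p₀ hle (by nlinarith))⟩
  · have hle' : (p₀ : ℝ) ≤ p := hle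
    rw [abs_of_nonneg (by linarith)] at hp
    refine ⟨fun h1 => h1.mono (hk p₀ p hle (by nlinarith)),
      fun h1 => poly_mono_beta hw hv h p (h1.mono (avgTwoPoint_mono hw hv β₁ hle))⟩

theorem continuousAt_betaC (hw : Good w) (hv : ∀ (β : ℝ≥0) (r : ℝ), w β (r : T) = v β r)
    {p₀ : I} (hp₀ : 0 < (p₀ : ℝ)) : ContinuousAt (betaC v) p₀ := by
  refine tendsto_order.2 ⟨fun a ha => ?_, fun a ha => ?_⟩
  · obtain ⟨β₁, h1, h1'⟩ := ENNReal.lt_iff_exists_nnreal_btwn.1 ha
    obtain ⟨β₂, h2, h2'⟩ := ENNReal.lt_iff_exists_nnreal_btwn.1 h1'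
    filter_upwards [poly_eventually hw hv (ENNReal.coe_lt_coe.1 h2) hp₀] with p hp
    by_contra hcon
    push Not at hcon
    have h3 := hcon.trans_lt h1
    unfold betaC at h3
    simp only [iInf_lt_iff, exists_prop] at h3
    obtain ⟨β, hβ, hβ'⟩ := h3
    have h4 := hp.1 (poly_mono_beta hw hv (ENNReal.coe_lt_coe.1 hβ') p hβ)
    have h5 : betaC v p₀ ≤ β₂ := iInf₂_le β₂ h4
    exact absurd h2' (not_lt.2 h5)
  · unfold betaC at ha
    simp only [iInf_lt_iff, exists_prop] at ha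
    obtain ⟨β₁, hβ, hβ'⟩ := ha
    obtain ⟨β₂, h2, h2'⟩ := ENNReal.lt_iff_exists_nnreal_btwn.1 hβ'
    filter_upwards [poly_eventually hw hv (ENNReal.coe_lt_coe.1 h2) hp₀] with p hp
    have h5 : betaC v p ≤ β₂ := iInf₂_le β₂ (hp.2 hβ)
    exact h5.trans_lt h2'

end general

end

end Pool.Agent.Lib.MP_533d58_pr
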