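import Mathlib

/-!
The closed cone of positive semidefinite kernels on a compact space, generated by the
rank one kernels `f x * f y`.
-/

namespace Pool.Agent.Lib.MP_533d58_pr

open MeasureTheory Filter Topology
open scoped Nat

noncomputable section

variable {X Y : Type*} [TopologicalSpace X] [TopologicalSpace Y]

/-- The rank one kernel `(x, y) ↦ f x * f y`. -/
def tens (f : C(X, ℝ)) : C(X × X, ℝ) :=
  ⟨fun z => f z.1 * f z.2, by fun_prop⟩

@[simp] lemma tens_apply (f : C(X, ℝ)) (z : X × X) : tens f z = f z.1 * f z.2 := rfl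

/-- `tens` as a monoid homomorphism. -/
def tensHom (X : Type*) [TopologicalSpace X] : C(X, ℝ) →* C(X × X, ℝ) where
  toFun := tens
  map_one' := by ext z; simp
  map_mul' f g := by ext z; simp; ring

variable [CompactSpace X] [CompactSpace Y]

/-- The closed cone generated by rank one kernels. -/
def cone (X : Type*) [TopologicalSpace X] [CompactSpace X] : Subsemiring C(X × X, ℝ) :=
  (Subsemiring.closure ((MonoidHom.mrange (tensHom X) : Submonoid _) : Set C(X × X, ℝ))).topologicalClosure

lemma isClosed_cone : IsClosed (cone X : Set C(X × X, ℝ)) :=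
  Subsemiring.isClosed_topologicalClosure _

lemma tens_mem (f : C(X, ℝ)) : tens f ∈ cone X :=
  Subsemiring.le_topologicalClosure _ (Subsemiring.subset_closure ⟨f, rfl⟩)

lemma cone_induction {P : Set C(X × X, ℝ)} (hc : IsClosed P) (h0 : 0 ∈ P)
    (hadd : ∀ a ∈ P, ∀ b ∈ P, a + b ∈ P) (ht : ∀ f, tens f ∈ P) {K : C(X × X, ℝ)}
    (hK : K ∈ cone X) : K ∈ P := by
  have : ((Subsemiring.closure ((MonoidHom.mrange (tensHom X) : Submonoid _) :
      Set C(X × X, ℝ))) : Set C(X × X, ℝ)) ⊆ P := by
    intro K hK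
    rw [SetLike.mem_coe, Subsemiring.mem_closure_iff, Submonoid.closure_eq] at hK
    induction hK using AddSubmonoid.closure_induction with
    | mem x hx => obtain ⟨f, rfl⟩ := hx; exact ht f
    | zero => exact h0
    | add x y _ _ hx hy => exact hadd x hx y hy
  exact closure_minimal this hc hK

lemma smul_mem {c : ℝ} (hc : 0 ≤ c) {K : C(X × X, ℝ)} (hK : K ∈ cone X) : c • K ∈ cone X := by
  have h1 : c • K = tens (ContinuousMap.const X (√c)) * K := by
    ext z; simp [Real.mul_self_sqrt hc]
  rw [h1]
  exact (cone X).mul_mem (tens_mem _) hK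

lemma mem_of_hasSum {F : ℕ → C(X × X, ℝ)} {G : C(X × X, ℝ)} (h : HasSum F G)
    (hF : ∀ n, F n ∈ cone X) : G ∈ cone X := by
  refine isClosed_cone.mem_of_tendsto h.tendsto_sum_nat (Eventually.of_forall fun n => ?_)
  exact (cone X).sum_mem fun i _ => hF i

omit [CompactSpace X] in
lemma hasSum_of_pointwise {F : ℕ → C(Y, ℝ)} {G : C(Y, ℝ)} (hs : Summable fun n => ‖F n‖)
    (hp : ∀ y, HasSum (fun n => F n y) (G y)) : HasSum F G := by
  have h1 : Summable F := hs.of_norm
  have h2 : ∑' n, F n = G := by
    ext y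
    have := (ContinuousMap.evalCLM ℝ y).hasSum h1.hasSum
    exact this.unique (hp y)
  exact h2 ▸ h1.hasSum

/-- Pull-back of kernels along a continuous map. -/
def pull (g : C(Y, X)) (K : C(X × X, ℝ)) : C(Y × Y, ℝ) :=
  K.comp (g.prodMap g)

omit [CompactSpace X] [CompactSpace Y] in
@[simp] lemma pull_apply (g : C(Y, X)) (K : C(X × X, ℝ)) (z : Y × Y) :
    pull g K z = K (g z.1, g z.2) := rfl

lemma pull_mem (g : C(Y, X)) {K : C(X × X, ℝ)} (hK : K ∈ cone X) : pull g K ∈ cone Y := by
  refine cone_induction (P := {K | pull g K ∈ cone Y}) ?_ ?_ ?_ ?_ hK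
  · exact isClosed_cone.preimage (ContinuousMap.continuous_precomp (g.prodMap g))
  · have : pull g (0 : C(X × X, ℝ)) = 0 := by ext z; simp
    simp only [Set.mem_ofPred_eq, this]; exact (cone Y).zero_mem
  · intro a ha b hb
    have : pull g (a + b) = pull g a + pull g b := by ext z; simp
    simp only [Set.mem_ofPred_eq, this]; exact (cone Y).add_mem ha hb
  · intro f
    have : pull g (tens f) = tens (f.comp g) := by ext z; simp
    simp only [Set.mem_ofPred_eq, this]; exact tens_mem _

/-- The four term difference of a kernel along two maps. -/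
def fourTerm (p q : C(Y, X)) (K : C(X × X, ℝ)) : C(Y × Y, ℝ) :=
  K.comp (p.prodMap p) - K.comp (p.prodMap q) - K.comp (q.prodMap p) + K.comp (q.prodMap q)

omit [CompactSpace X] [CompactSpace Y] in
@[simp] lemma fourTerm_apply (p q : C(Y, X)) (K : C(X × X, ℝ)) (z : Y × Y) :
    fourTerm p q K z = K (p z.1, p z.2) - K (p z.1, q z.2) - K (q z.1, p z.2)
      + K (q z.1, q z.2) := rfl

lemma fourTerm_mem (p q : C(Y, X)) {K : C(X × X, ℝ)} (hK : K ∈ cone X) :
    fourTerm p q K ∈ cone Y := by
  refine cone_induction (P := {K | fourTerm p q K ∈ cone Y}) ?_ ?_ ?_ ?_ hK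
  · refine isClosed_cone.preimage ?_
    unfold fourTerm
    exact (((ContinuousMap.continuous_precomp _).sub (ContinuousMap.continuous_precomp _)).sub
      (ContinuousMap.continuous_precomp _)).add (ContinuousMap.continuous_precomp _)
  · have : fourTerm p q (0 : C(X × X, ℝ)) = 0 := by ext z; simp
    simp only [Set.mem_ofPred_eq, this]; exact (cone Y).zero_mem
  · intro a ha b hb
    have : fourTerm p q (a + b) = fourTerm p q a + fourTerm p q b := by ext z; simp; ring
    simp only [Set.mem_ofPred_eq, this]; exact (cone Y).add_mem ha hb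
  · intro f
    have : fourTerm p q (tens f) = tens (f.comp p - f.comp q) := by ext z; simp; ring
    simp only [Set.mem_ofPred_eq, this]; exact tens_mem _

section integral

variable [MeasurableSpace Y] [OpensMeasurableSpace Y] (μ : Measure Y) [IsFiniteMeasure μ]

lemma integrable_cm (f : C(Y, ℝ)) : Integrable f μ :=
  (BoundedContinuousFunction.mkOfCompact f).integrable μ

/-- Integration against a finite measure as a continuous linear functional. -/
def intCLM : C(Y, ℝ) →L[ℝ] ℝ :=
  LinearMap.mkContinuous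
    { toFun := fun f => ∫ y, f y ∂μ
      map_add' := fun f g => by
        simp only [ContinuousMap.add_apply]
        exact integral_add (integrable_cm μ f) (integrable_cm μ g)
      map_smul' := fun c f => by
        simp only [ContinuousMap.smul_apply, smul_eq_mul, RingHom.id_apply]
        exact integral_const_mul c _ }
    (μ.real Set.univ) (fun f => by
      have := norm_integral_le_of_norm_le_const (μ := μ) (f := fun y => f y) (C := ‖f‖)
        (Eventually.of_forall fun y => f.norm_coe_le_norm y)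
      simpa [mul_comm] using this)

@[simp] lemma intCLM_apply (f : C(Y, ℝ)) : intCLM μ f = ∫ y, f y ∂μ := rfl

end integral

lemma integral_nonneg_of_mem [MeasurableSpace X] [BorelSpace X] [SecondCountableTopology X]
    (μ : Measure X) [IsFiniteMeasure μ] {K : C(X × X, ℝ)} (hK : K ∈ cone X) :
    0 ≤ ∫ z, K z ∂(μ.prod μ) := by
  refine cone_induction (P := {K | 0 ≤ intCLM (μ.prod μ) K}) ?_ ?_ ?_ ?_ hK
  · exact isClosed_le continuous_const (intCLM (μ.prod μ)).continuous
  · simp
  · intro a ha b hb
    simp only [Set.mem_ofPred_eq, map_add] at *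
    linarith
  · intro f
    simp only [Set.mem_ofPred_eq, intCLM_apply, tens_apply]
    rw [integral_prod_mul (μ := μ) (ν := μ) (fun x => f x) (fun x => f x)]
    exact mul_self_nonneg _

/-! Power series of kernels. -/

/-- Post-composition with a continuous real function. -/
def post (u : ℝ → ℝ) (hu : Continuous u) (K : C(Y, ℝ)) : C(Y, ℝ) :=
  ⟨fun y => u (K y), hu.comp K.continuous⟩

omit [CompactSpace Y] in
@[simp] lemma post_apply (u : ℝ → ℝ) (hu : Continuous u) (K : C(Y, ℝ)) (y : Y) :
    post u hu K y = u (K y) := rfl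

lemma norm_term_le (K : C(Y, ℝ)) (m : ℕ) :
    ‖((m ! : ℝ)⁻¹) • K ^ m‖ ≤ ‖K‖ ^ m / m ! := by
  refine (ContinuousMap.norm_le _ (by positivity)).2 fun y => ?_
  simp only [ContinuousMap.smul_apply, ContinuousMap.pow_apply, smul_eq_mul, norm_mul, norm_inv,
    Real.norm_natCast, norm_pow]
  rw [div_eq_inv_mul]
  gcongr
  exact K.norm_coe_le_norm y

lemma hasSum_exp_cm (K : C(Y, ℝ)) :
    HasSum (fun n : ℕ => ((n ! : ℝ)⁻¹) • K ^ n) (post Real.exp Real.continuous_exp K) := by
  refine hasSum_of_pointwise ?_ fun y => ?_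
  · exact Summable.of_nonneg_of_le (fun _ => norm_nonneg _) (norm_term_le K)
      (Real.summable_pow_div_factorial _)
  · simp only [ContinuousMap.smul_apply, ContinuousMap.pow_apply, smul_eq_mul, post_apply]
    rw [Real.exp_eq_exp_ℝ]
    simpa using NormedSpace.exp_series_hasSum_exp' (𝕂 := ℝ) (K y)

lemma hasSum_cosh_cm (K : C(Y, ℝ)) :
    HasSum (fun n : ℕ => (((2 * n)! : ℝ)⁻¹) • K ^ (2 * n))
      (post Real.cosh Real.continuous_cosh K) := by
  refine hasSum_of_pointwise ?_ fun y => ?_
  · exact Summable.of_nonneg_of_le (fun _ => norm_nonneg _) (fun n => norm_term_le K (2 * n))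
      (Real.hasSum_cosh _).summable
  · simp only [ContinuousMap.smul_apply, ContinuousMap.pow_apply, smul_eq_mul, post_apply]
    simpa [div_eq_inv_mul] using Real.hasSum_cosh (K y)

lemma hasSum_sinh_cm (K : C(Y, ℝ)) :
    HasSum (fun n : ℕ => (((2 * n + 1)! : ℝ)⁻¹) • K ^ (2 * n + 1))
      (post Real.sinh Real.continuous_sinh K) := by
  refine hasSum_of_pointwise ?_ fun y => ?_
  · exact Summable.of_nonneg_of_le (fun _ => norm_nonneg _) (fun n => norm_term_le K (2 * n + 1))
      (Real.hasSum_sinh _).summable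
  · simp only [ContinuousMap.smul_apply, ContinuousMap.pow_apply, smul_eq_mul, post_apply]
    simpa [div_eq_inv_mul] using Real.hasSum_sinh (K y)

lemma exp_mem {K : C(X × X, ℝ)} (hK : K ∈ cone X) :
    post Real.exp Real.continuous_exp K ∈ cone X :=
  mem_of_hasSum (hasSum_exp_cm K) fun n => smul_mem (by positivity) ((cone X).pow_mem hK n)

lemma sinh_mem {K : C(X × X, ℝ)} (hK : K ∈ cone X) :
    post Real.sinh Real.continuous_sinh K ∈ cone X :=
  mem_of_hasSum (hasSum_sinh_cm K) fun n => smul_mem (by positivity) ((cone X).pow_mem hK _)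

lemma sinh_sub_mem {K : C(X × X, ℝ)} (hK : K ∈ cone X) :
    post Real.sinh Real.continuous_sinh K - K ∈ cone X := by
  have h := (hasSum_nat_add_iff' 1).2 (hasSum_sinh_cm K)
  simp only [Finset.range_one, Finset.sum_singleton, mul_zero, zero_add, Nat.factorial_one,
    Nat.cast_one, inv_one, pow_one, one_smul] at h
  exact mem_of_hasSum h fun n => smul_mem (by positivity) ((cone X).pow_mem hK _)

lemma pow_sub_pow_mem {A B : C(X × X, ℝ)} (hA : A ∈ cone X) (hBA : B - A ∈ cone X) (n : ℕ) :
    B ^ n - A ^ n ∈ cone X := by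
  have hB : B ∈ cone X := by
    have := (cone X).add_mem hBA hA
    simpa using this
  induction n with
  | zero => simp
  | succ n ih =>
    have : B ^ (n + 1) - A ^ (n + 1) = B * (B ^ n - A ^ n) + (B - A) * A ^ n := by ring
    rw [this]
    exact (cone X).add_mem ((cone X).mul_mem hB ih) ((cone X).mul_mem hBA ((cone X).pow_mem hA n))

/-- If `D ^ 2 ≼ Y ^ 2` in the cone order then `sinh D ≼ D * exp Y`. -/
lemma sinh_le_mul_exp {D Z : C(X × X, ℝ)} (hD : D ∈ cone X) (hZ : Z ∈ cone X)
    (h : Z ^ 2 - D ^ 2 ∈ cone X) :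
    D * post Real.exp Real.continuous_exp Z - post Real.sinh Real.continuous_sinh D ∈ cone X := by
  have h1 : D * post Real.cosh Real.continuous_cosh Z - post Real.sinh Real.continuous_sinh D
      ∈ cone X := by
    refine mem_of_hasSum (((hasSum_cosh_cm Z).mul_left D).sub (hasSum_sinh_cm D)) fun n => ?_
    have e : D * ((((2 * n)! : ℝ)⁻¹) • Z ^ (2 * n)) - (((2 * n + 1)! : ℝ)⁻¹) • D ^ (2 * n + 1)
        = (((2 * n)! : ℝ)⁻¹) • (D * ((Z ^ 2) ^ n - (D ^ 2) ^ n))
          + ((((2 * n)! : ℝ)⁻¹) - (((2 * n + 1)! : ℝ)⁻¹)) • D ^ (2 * n + 1) := by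
      ext z
      simp only [ContinuousMap.sub_apply, ContinuousMap.mul_apply, ContinuousMap.smul_apply,
        ContinuousMap.pow_apply, smul_eq_mul, ContinuousMap.add_apply, ← pow_mul]
      ring
    rw [e]
    refine (cone X).add_mem (smul_mem (by positivity) ((cone X).mul_mem hD
      (pow_sub_pow_mem ((cone X).pow_mem hD 2) h n))) (smul_mem ?_ ((cone X).pow_mem hD _))
    rw [sub_nonneg]
    apply inv_anti₀ (by positivity)
    exact_mod_cast Nat.factorial_le (Nat.le_succ _)
  have h2 := (cone X).mul_mem hD (sinh_mem hZ)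
  have e : D * post Real.exp Real.continuous_exp Z - post Real.sinh Real.continuous_sinh D
      = (D * post Real.cosh Real.continuous_cosh Z - post Real.sinh Real.continuous_sinh D)
        + D * post Real.sinh Real.continuous_sinh Z := by
    ext z
    simp only [ContinuousMap.sub_apply, ContinuousMap.mul_apply, post_apply,
      ContinuousMap.add_apply, ← Real.cosh_add_sinh]
    ring
  rw [e]
  exact (cone X).add_mem h1 h2

end

end Pool.Agent.Lib.MP_533d58_pr
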