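import Mathlib

/-!
Planar rotator models on the open edges of Bernoulli bond percolation on the square lattice,
and their BKT critical inverse temperature.
-/

namespace Pool.Agent.Lib.MP_533d58_pr

open MeasureTheory Filter Real
open scoped ENNReal NNReal unitInterval

noncomputable section

/-- Sites of the square lattice. -/
abbrev Site : Type := ℤ × ℤ

/-- Nearest-neighbour edges: `(x, false)` is the edge from `x` to `x + (1, 0)` and `(x, true)`
is the edge from `x` to `x + (0, 1)`. Every nearest-neighbour edge occurs exactly once. -/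
abbrev Edge : Type := Site × Bool

/-- The second endpoint of an edge (the first one is `e.1`). -/
def ehead (e : Edge) : Site := if e.2 then (e.1.1, e.1.2 + 1) else (e.1.1 + 1, e.1.2)

/-- The box `{-L, ..., L}^2`. -/
def box (L : ℕ) : Finset Site := Finset.Icc (-(L : ℤ)) L ×ˢ Finset.Icc (-(L : ℤ)) L

/-- The edges with both endpoints in the box. -/
def boxEdges (L : ℕ) : Finset Edge := (box L ×ˢ Finset.univ).filter fun e => ehead e ∈ box L

/-- The angle at a site of the box (`0` outside the box). -/
def angle (L : ℕ) (θ : box L → ℝ) (x : Site) : ℝ := if h : x ∈ box L then θ ⟨x, h⟩ else 0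

/-- The unnormalised density: product of the weights `v (θ x - θ y)` over the open edges of
the box. -/
def density (v : ℝ → ℝ) (ω : Edge → Bool) (L : ℕ) (θ : box L → ℝ) : ℝ :=
  ∏ e ∈ (boxEdges L).filter (fun e => ω e = true), v (angle L θ e.1 - angle L θ (ehead e))

/-- The configuration space `[0, 2π)^box`. -/
def cube (L : ℕ) : Set (box L → ℝ) := Set.univ.pi fun _ => Set.Ico 0 (2 * π)

/-- The finite-volume two-point function. -/
def twoPointFin (v : ℝ → ℝ) (ω : Edge → Bool) (L : ℕ) (x : Site) : ℝ :=
  (∫ θ in cube L, cos (angle L θ 0 - angle L θ x) * density v ω L θ) /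
    ∫ θ in cube L, density v ω L θ

/-- The infinite-volume two-point function. -/
def twoPoint (v : ℝ → ℝ) (ω : Edge → Bool) (x : Site) : ℝ :=
  limUnder atTop fun L : ℕ => twoPointFin v ω L x

/-- Bernoulli bond percolation with parameter `p`. -/
def perc (p : I) : Measure (Edge → Bool) :=
  Measure.infinitePi fun _ => ProbabilityTheory.bernoulliMeasure true false p

/-- The averaged two-point function. -/
def avgTwoPoint (v : ℝ → ℝ) (p : I) (x : Site) : ℝ := ∫ ω, twoPoint v ω x ∂perc p

/-- `f x ≥ c |x|^(-C)` for all `x ≠ 0`, with the Euclidean norm. -/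
def PolyDecay (f : Site → ℝ) : Prop :=
  ∃ c C : ℝ, 0 < c ∧ 0 < C ∧ ∀ x : Site, x ≠ 0 → c * √((x.1 : ℝ) ^ 2 + (x.2 : ℝ) ^ 2) ^ (-C) ≤ f x

/-- The critical inverse temperature of the family of weights `v β`, with `inf ∅ = ∞`. -/
def betaC (v : ℝ → ℝ → ℝ) (p : I) : ℝ≥0∞ :=
  ⨅ (β : ℝ≥0) (_ : PolyDecay (avgTwoPoint (v β) p)), (β : ℝ≥0∞)

/-- The Villain weight; at `β = 0`, where the series diverges, the weight is constant. -/
def villain (β θ : ℝ) : ℝ :=
  if β = 0 then 1 else ∑' k : ℤ, exp (-β * (θ + 2 * π * k) ^ 2 / 2)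

/-- The XY weight. -/
def xy (β θ : ℝ) : ℝ := exp (β * cos θ)

end

end Pool.Agent.Lib.MP_533d58_pr
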