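import Pool.Agent.Lib.MP_533d58_pr.Cone

/-!
Ginibre duplication on the torus, and one-edge comparison inequalities.
-/

namespace Pool.Agent.Lib.MP_533d58_pr

open MeasureTheory Filter Topology Real
open scoped NNReal

noncomputable section

instance factTwoPi : Fact (0 < 2 * π) := ⟨Real.two_pi_pos⟩

/-- The circle of angles. -/
abbrev T : Type := AddCircle (2 * π)

/-- A continuous periodic function as a continuous function on the circle. -/
def liftC (f : ℝ → ℝ) (hf : Continuous f) (hp : Function.Periodic f (2 * π)) : C(T, ℝ) :=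
  ⟨hp.lift, hf.quotient_liftOn' _⟩

@[simp] lemma liftC_coe (f : ℝ → ℝ) (hf : Continuous f) (hp : Function.Periodic f (2 * π))
    (x : ℝ) : liftC f hf hp (x : T) = f x := rfl

/-- cosine on the circle -/
def cosT : C(T, ℝ) := liftC Real.cos Real.continuous_cos Real.cos_periodic

/-- sine on the circle -/
def sinT : C(T, ℝ) := liftC Real.sin Real.continuous_sin Real.sin_periodic

@[simp] lemma cosT_coe (x : ℝ) : cosT (x : T) = Real.cos x := rfl
@[simp] lemma sinT_coe (x : ℝ) : sinT (x : T) = Real.sin x := rfl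

lemma cosT_sub (x y : T) : cosT (x - y) = cosT x * cosT y + sinT x * sinT y := by
  induction x using QuotientAddGroup.induction_on
  induction y using QuotientAddGroup.induction_on
  rw [← QuotientAddGroup.mk_sub]
  simp only [cosT_coe, sinT_coe, Real.cos_sub]

lemma cosT_add (x y : T) : cosT (x + y) = cosT x * cosT y - sinT x * sinT y := by
  induction x using QuotientAddGroup.induction_on
  induction y using QuotientAddGroup.induction_on
  rw [← QuotientAddGroup.mk_add]
  simp only [cosT_coe, sinT_coe, Real.cos_add]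

lemma sinT_sq (x : T) : sinT x ^ 2 = 1 - cosT x ^ 2 := by
  induction x using QuotientAddGroup.induction_on
  simp [Real.sin_sq]

lemma abs_cosT_le (x : T) : |cosT x| ≤ 1 := by
  induction x using QuotientAddGroup.induction_on
  simp [Real.abs_cos_le_one]

/-- The duplicated kernel `(x, y) ↦ u (x - y) * v (x + y)`. -/
def pair {G : Type*} [AddCommGroup G] [TopologicalSpace G] [IsTopologicalAddGroup G]
    (u v : C(G, ℝ)) : C(G × G, ℝ) :=
  ⟨fun z => u (z.1 - z.2) * v (z.1 + z.2), by fun_prop⟩

@[simp] lemma pair_apply {G : Type*} [AddCommGroup G] [TopologicalSpace G]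
    [IsTopologicalAddGroup G] (u v : C(G, ℝ)) (z : G × G) :
    pair u v z = u (z.1 - z.2) * v (z.1 + z.2) := rfl

variable {V : Type} [Fintype V]

instance borelSpace_prod : BorelSpace ((V → T) × (V → T)) := Prod.borelSpace

instance haar_pi : (volume : Measure (V → T)).IsAddHaarMeasure := inferInstance

instance haar_prod : ((volume : Measure (V → T)).prod (volume : Measure (V → T))).IsAddHaarMeasure :=
  Measure.prod.instIsAddHaarMeasure _ _

lemma measurePreserving_double :
    MeasurePreserving (fun z : (V → T) × (V → T) => (z.1 - z.2, z.1 + z.2))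
      ((volume : Measure (V → T)).prod volume) ((volume : Measure (V → T)).prod volume) := by
  let f : ((V → T) × (V → T)) →+ ((V → T) × (V → T)) :=
    { toFun := fun z => (z.1 - z.2, z.1 + z.2)
      map_zero' := by simp
      map_add' := fun x y => by ext <;> simp <;> abel }
  have hc : Continuous f := by
    change Continuous (fun z : (V → T) × (V → T) => (z.1 - z.2, z.1 + z.2))
    fun_prop
  have hs : Function.Surjective f := by
    rintro ⟨a, b⟩
    have h2 : ∀ t : T, ∃ s : T, (2 : ℤ) • s = t := fun t =>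
      DivisibleBy.surjective_smul T ℤ (two_ne_zero) t
    choose d hd using h2
    refine ⟨(a + fun v => d (b v - a v), fun v => d (b v - a v)), ?_⟩
    change ((a + fun v => d (b v - a v)) - (fun v => d (b v - a v)),
      (a + fun v => d (b v - a v)) + (fun v => d (b v - a v))) = (a, b)
    refine Prod.ext (by simp) ?_
    ext v
    have := hd (b v - a v)
    simp only [Pi.add_apply]
    rw [add_assoc, ← two_zsmul, this]
    abel
  exact f.measurePreserving hc hs rfl

lemma integral_pair (u v : C(V → T, ℝ)) :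
    ∫ z, pair u v z ∂((volume : Measure (V → T)).prod volume)
      = (∫ x, u x) * ∫ x, v x := by
  rw [← integral_prod_mul (μ := volume) (ν := volume) (fun x => u x) (fun x => v x)]
  have h := (measurePreserving_double (V := V))
  have hm : AEStronglyMeasurable (fun z : (V → T) × (V → T) => u z.1 * v z.2)
      (Measure.map (fun z : (V → T) × (V → T) => (z.1 - z.2, z.1 + z.2))
        ((volume : Measure (V → T)).prod volume)) :=
    (by fun_prop : Continuous fun z : (V → T) × (V → T) => u z.1 * v z.2).aestronglyMeasurable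
  have := integral_map h.measurable.aemeasurable hm
  rw [h.map_eq] at this
  rw [this]
  rfl

/-- The angle difference between two vertices. -/
def gr (s t : V) : C(V → T, T) := ⟨fun θ => θ s - θ t, by fun_prop⟩

omit [Fintype V] in
@[simp] lemma gr_apply (s t : V) (θ : V → T) : gr s t θ = θ s - θ t := rfl

/-- Integral of `F` times the weight `v` of the edge `s t`, as a functional of `v`. -/
def wInt (F : C(V → T, ℝ)) (s t : V) : C(T, ℝ) →L[ℝ] ℝ :=
  (intCLM (volume : Measure (V → T))).comp
    ((ContinuousLinearMap.mul ℝ C(V → T, ℝ) F).comp (ContinuousMap.compCLM ℝ ℝ (gr s t)))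

lemma wInt_apply (F : C(V → T, ℝ)) (s t : V) (v : C(T, ℝ)) :
    wInt F s t v = ∫ θ, F θ * v (θ s - θ t) := rfl

lemma wInt_eq (F : C(V → T, ℝ)) (s t : V) (v : C(T, ℝ)) :
    wInt F s t v = ∫ θ, (F * v.comp (gr s t)) θ := rfl

/-- The observable. -/
def obs (a b : V) : C(V → T, ℝ) := cosT.comp (gr a b)

omit [Fintype V] in
@[simp] lemma obs_apply (a b : V) (θ : V → T) : obs a b θ = cosT (θ a - θ b) := rfl

/-- The antisymmetric comparison form of two weights. -/
def cmp (R : C(V → T, ℝ)) (s t a b : V) (v w : C(T, ℝ)) : ℝ :=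
  wInt (obs a b * R) s t v * wInt R s t w - wInt (obs a b * R) s t w * wInt R s t v

/-- The positive functional on kernels attached to an edge. -/
def lam (R : C(V → T, ℝ)) (s t a b : V) (K : C(T × T, ℝ)) : ℝ :=
  intCLM ((volume : Measure (V → T)).prod volume)
    (pull (gr s t) K * (tens (sinT.comp (gr a b)) * pair R R))

lemma lam_nonneg {R : C(V → T, ℝ)} (hR : pair R R ∈ cone (V → T)) (s t a b : V)
    {K : C(T × T, ℝ)} (hK : K ∈ cone T) : 0 ≤ lam R s t a b K :=
  integral_nonneg_of_mem _ ((cone _).mul_mem (pull_mem _ hK) ((cone _).mul_mem (tens_mem _) hR))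

lemma lam_sub_smul (R : C(V → T, ℝ)) (s t a b : V) (K L : C(T × T, ℝ)) (c : ℝ) :
    lam R s t a b (K - c • L) = lam R s t a b K - c * lam R s t a b L := by
  unfold lam
  rw [← smul_eq_mul c, ← map_smul, ← map_sub]
  congr 1
  ext z
  simp only [ContinuousMap.mul_apply, pull_apply, ContinuousMap.sub_apply,
    ContinuousMap.smul_apply, smul_eq_mul]
  ring

lemma lam_add (R : C(V → T, ℝ)) (s t a b : V) (K L : C(T × T, ℝ)) :
    lam R s t a b (K + L) = lam R s t a b K + lam R s t a b L := by
  unfold lam
  rw [← map_add]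
  congr 1
  ext z
  simp only [ContinuousMap.mul_apply, pull_apply, ContinuousMap.add_apply]
  ring

lemma lam_pair (R : C(V → T, ℝ)) (s t a b : V) (v w : C(T, ℝ)) :
    lam R s t a b (pair v w - pair w v) = cmp R s t a b v w := by
  have h1 := integral_pair (obs a b * R * v.comp (gr s t)) (R * w.comp (gr s t))
  have h2 := integral_pair (obs a b * R * w.comp (gr s t)) (R * v.comp (gr s t))
  have h3 := integral_pair (R * w.comp (gr s t)) (obs a b * R * v.comp (gr s t))
  have h4 := integral_pair (R * v.comp (gr s t)) (obs a b * R * w.comp (gr s t))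
  rw [← intCLM_apply] at h1 h2 h3 h4
  have e : (2 : ℝ) • (pull (gr s t) (pair v w - pair w v) *
      (tens (sinT.comp (gr a b)) * pair R R))
      = (pair (obs a b * R * v.comp (gr s t)) (R * w.comp (gr s t))
        - pair (obs a b * R * w.comp (gr s t)) (R * v.comp (gr s t)))
        + (pair (R * w.comp (gr s t)) (obs a b * R * v.comp (gr s t))
        - pair (R * v.comp (gr s t)) (obs a b * R * w.comp (gr s t))) := by
    ext ⟨α, β⟩
    have e1 : ∀ p q : V, α p - β p - (α q - β q) = (α p - α q) - (β p - β q) := fun p q => by abel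
    have e2 : ∀ p q : V, α p + β p - (α q + β q) = (α p - α q) + (β p - β q) := fun p q => by abel
    simp only [ContinuousMap.mul_apply, pull_apply, ContinuousMap.sub_apply,
      ContinuousMap.smul_apply, smul_eq_mul, ContinuousMap.add_apply, pair_apply, tens_apply,
      ContinuousMap.comp_apply, gr_apply, obs_apply, Pi.sub_apply, Pi.add_apply, e1, e2,
      cosT_sub (α a - α b), cosT_add (α a - α b)]
    ring
  have h5 := congrArg (intCLM ((volume : Measure (V → T)).prod volume)) e
  rw [map_smul, map_add, map_sub, map_sub, h1, h2, h3, h4] at h5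
  unfold lam cmp
  simp only [wInt_eq]
  simp only [smul_eq_mul] at h5
  linarith

lemma integral_pos_cm {F : C(V → T, ℝ)} (hF : ∀ θ, 0 < F θ) : 0 < ∫ θ, F θ := by
  rw [integral_pos_iff_support_of_nonneg (fun θ => (hF θ).le) (integrable_cm _ F)]
  have : Function.support (fun θ => F θ) = Set.univ := by
    ext θ; simp [(hF θ).ne']
  rw [this]
  exact isOpen_univ.measure_pos _ Set.univ_nonempty

lemma wInt_pos {R : C(V → T, ℝ)} (hR : ∀ θ, 0 < R θ) (s t : V) {v : C(T, ℝ)}
    (hv : ∀ x, 0 < v x) : 0 < wInt R s t v := by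
  rw [wInt_eq]
  exact integral_pos_cm fun θ => mul_pos (hR θ) (hv _)

lemma wInt_le {R : C(V → T, ℝ)} (hR : ∀ θ, 0 < R θ) (s t : V) (v : C(T, ℝ)) :
    wInt R s t v ≤ ‖v‖ * wInt R s t 1 := by
  rw [← smul_eq_mul ‖v‖, ← map_smul, wInt_eq, wInt_eq]
  refine integral_mono (integrable_cm _ _) (integrable_cm _ _) fun θ => ?_
  simp only [ContinuousMap.mul_apply, ContinuousMap.comp_apply, ContinuousMap.smul_apply,
    ContinuousMap.one_apply, smul_eq_mul, mul_one]
  exact mul_le_mul_of_nonneg_left ((le_abs_self _).trans (v.norm_coe_le_norm _)) (hR θ).le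

/-- The correlation as a function of the weight on the marked edge. -/
def ratio (R : C(V → T, ℝ)) (s t a b : V) (v : C(T, ℝ)) : ℝ :=
  wInt (obs a b * R) s t v / wInt R s t v

lemma cmp_eq {R : C(V → T, ℝ)} (hR : ∀ θ, 0 < R θ) (s t a b : V) {v w : C(T, ℝ)}
    (hv : ∀ x, 0 < v x) (hw : ∀ x, 0 < w x) :
    cmp R s t a b v w
      = wInt R s t v * wInt R s t w * (ratio R s t a b v - ratio R s t a b w) := by
  have h1 := wInt_pos hR s t hv
  have h2 := wInt_pos hR s t hw
  unfold cmp ratio
  field_simp

lemma ratio_le_of_cmp {R : C(V → T, ℝ)} (hR : ∀ θ, 0 < R θ) (s t a b : V) {v w : C(T, ℝ)}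
    (hv : ∀ x, 0 < v x) (hw : ∀ x, 0 < w x) (h : 0 ≤ cmp R s t a b v w) :
    ratio R s t a b w ≤ ratio R s t a b v := by
  rw [cmp_eq hR s t a b hv hw] at h
  have h1 := mul_pos (wInt_pos hR s t hv) (wInt_pos hR s t hw)
  have := (mul_nonneg_iff_of_pos_left h1).1 h
  linarith

/-- The properties of a family of edge weights used in the comparison argument. -/
structure Good (w : ℝ≥0 → C(T, ℝ)) : Prop where
  pos : ∀ β x, 0 < w β x
  gin : ∀ β, pair (w β) (w β) ∈ cone T
  mono0 : ∀ β, ∀ (V : Type) [Fintype V] (R : C(V → T, ℝ)), pair R R ∈ cone (V → T) →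
    (∀ θ, 0 < R θ) → ∀ s t a b : V, ratio R s t a b 1 ≤ ratio R s t a b (w β)
  key : ∀ β₁ β₂, β₁ < β₂ → ∃ C : ℝ, 0 < C ∧ ∀ (V : Type) [Fintype V] (R : C(V → T, ℝ)),
    pair R R ∈ cone (V → T) → (∀ θ, 0 < R θ) → ∀ s t a b : V,
      ratio R s t a b (w β₁) - ratio R s t a b 1
        ≤ C * (ratio R s t a b (w β₂) - ratio R s t a b (w β₁))

end

end Pool.Agent.Lib.MP_533d58_pr
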