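import Mathlib

/-!
Elementary facts about the periodised Gaussian.
-/

namespace Pool.Agent.Lib.MP_533d58_pr

open MeasureTheory Filter Topology Real

noncomputable section

/-- The periodised Gaussian. -/
def vil (β θ : ℝ) : ℝ := ∑' k : ℤ, Real.exp (-β * (θ + 2 * π * k) ^ 2 / 2)

lemma vil_term_le {β : ℝ} (hβ : 0 < β) {R θ : ℝ} (hθ : |θ| ≤ R) (k : ℤ) :
    Real.exp (-β * (θ + 2 * π * k) ^ 2 / 2)
      ≤ Real.exp (β * R ^ 2 / 2) * Real.exp (-π * (β * π * k ^ 2 - 2 * 0 * |(k : ℝ)|)) := by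
  rw [← Real.exp_add]
  apply Real.exp_le_exp.2
  have h1 : θ ^ 2 ≤ R ^ 2 := by
    rw [← sq_abs θ]; exact pow_le_pow_left₀ (abs_nonneg _) hθ 2
  have h2 : 0 ≤ β * (2 * θ + 2 * π * k) ^ 2 := by positivity
  have h3 : β * θ ^ 2 ≤ β * R ^ 2 := by gcongr
  nlinarith

lemma summable_bound {β : ℝ} (hβ : 0 < β) (R : ℝ) :
    Summable fun k : ℤ =>
      Real.exp (β * R ^ 2 / 2) * Real.exp (-π * (β * π * k ^ 2 - 2 * 0 * |(k : ℝ)|)) := by
  have := summable_pow_mul_jacobiTheta₂_term_bound 0 (T := β * π) (by positivity) 0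
  simp only [pow_zero, one_mul, Int.cast_abs] at this
  exact this.mul_left _

lemma summable_vil {β : ℝ} (hβ : 0 < β) (θ : ℝ) :
    Summable fun k : ℤ => Real.exp (-β * (θ + 2 * π * k) ^ 2 / 2) :=
  Summable.of_nonneg_of_le (fun _ => (Real.exp_pos _).le) (vil_term_le hβ le_rfl)
    (summable_bound hβ |θ|)

lemma continuous_vil {β : ℝ} (hβ : 0 < β) : Continuous (vil β) := by
  rw [continuous_iff_continuousAt]
  intro θ
  have h : ContinuousOn (vil β) (Metric.ball 0 (|θ| + 1)) := by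
    refine continuousOn_tsum (fun k => by fun_prop) (summable_bound hβ (|θ| + 1)) fun k x hx => ?_
    rw [Real.norm_of_nonneg (Real.exp_pos _).le]
    refine vil_term_le hβ ?_ k
    have : |x| < |θ| + 1 := by simpa using hx
    exact this.le
  refine h.continuousAt (Metric.isOpen_ball.mem_nhds ?_)
  simp

lemma periodic_vil (β : ℝ) : Function.Periodic (vil β) (2 * π) := by
  intro θ
  unfold vil
  rw [← (Equiv.addRight (1 : ℤ)).tsum_eq (fun k : ℤ => Real.exp (-β * (θ + 2 * π * k) ^ 2 / 2))]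
  refine tsum_congr fun k => ?_
  simp only [Equiv.coe_addRight, Int.cast_add, Int.cast_one]
  congr 1; ring

lemma vil_pos {β : ℝ} (hβ : 0 < β) (θ : ℝ) : 0 < vil β θ :=
  (summable_vil hβ θ).tsum_pos (fun _ => (Real.exp_pos _).le) 0 (Real.exp_pos _)

lemma hasSum_vil_mul {β γ : ℝ} (hβ : 0 < β) (hγ : 0 < γ) (a b : ℝ) :
    HasSum (fun z : ℤ × ℤ => Real.exp (-β * (a + 2 * π * z.1) ^ 2 / 2) *
      Real.exp (-γ * (b + 2 * π * z.2) ^ 2 / 2)) (vil β a * vil γ b) :=
  (summable_vil hβ a).hasSum.mul (summable_vil hγ b).hasSum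
    ((summable_vil hβ a).mul_of_nonneg (summable_vil hγ b) (fun _ => (Real.exp_pos _).le)
      (fun _ => (Real.exp_pos _).le))

/-- The duplication formula of the periodised Gaussian. -/
lemma vil_mul_vil {β : ℝ} (hβ : 0 < β) (a b : ℝ) :
    vil β (a - b) * vil β (a + b)
      = vil (2 * β) a * vil (2 * β) b + vil (2 * β) (a + π) * vil (2 * β) (b + π) := by
  have h2 : 0 < 2 * β := by positivity
  let g₀ : ℤ × ℤ → ℤ × ℤ := fun z => (z.1 - z.2, z.1 + z.2)
  let g₁ : ℤ × ℤ → ℤ × ℤ := fun z => (z.1 - z.2, z.1 + z.2 + 1)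
  have i₀ : Function.Injective g₀ := by
    rintro ⟨i, j⟩ ⟨k, l⟩ h
    simp only [g₀, Prod.mk.injEq] at h ⊢
    omega
  have i₁ : Function.Injective g₁ := by
    rintro ⟨i, j⟩ ⟨k, l⟩ h
    simp only [g₁, Prod.mk.injEq] at h ⊢
    omega
  have hc : IsCompl (Set.range g₀) (Set.range g₁) := by
    constructor
    · rw [Set.disjoint_left]
      rintro _ ⟨⟨i, j⟩, rfl⟩ ⟨⟨k, l⟩, h⟩
      simp only [g₀, g₁, Prod.mk.injEq] at h
      omega
    · rw [codisjoint_iff]
      change Set.range g₀ ∪ Set.range g₁ = Set.univ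
      rw [Set.eq_univ_iff_forall]
      rintro ⟨k, l⟩
      rcases Int.emod_two_eq_zero_or_one (k + l) with h | h
      · left
        refine ⟨((k + l) / 2, (l - k) / 2), ?_⟩
        simp only [g₀, Prod.mk.injEq]
        omega
      · right
        refine ⟨((k + l - 1) / 2, (l - k - 1) / 2), ?_⟩
        simp only [g₁, Prod.mk.injEq]
        omega
  set F : ℤ × ℤ → ℝ := fun z => Real.exp (-β * (a - b + 2 * π * z.1) ^ 2 / 2) *
      Real.exp (-β * (a + b + 2 * π * z.2) ^ 2 / 2) with hF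
  have s₀ : HasSum (F ∘ g₀) (vil (2 * β) a * vil (2 * β) b) := by
    convert hasSum_vil_mul h2 h2 a b using 1
    ext ⟨i, j⟩
    simp only [hF, g₀, Function.comp_apply, ← Real.exp_add]
    push_cast
    congr 1; ring
  have s₁ : HasSum (F ∘ g₁) (vil (2 * β) (a + π) * vil (2 * β) (b + π)) := by
    convert hasSum_vil_mul h2 h2 (a + π) (b + π) using 1
    ext ⟨i, j⟩
    simp only [hF, g₁, Function.comp_apply, ← Real.exp_add]
    push_cast
    congr 1; ring
  have := HasSum.add_isCompl (f := F) hc (i₀.hasSum_range_iff.2 s₀) (i₁.hasSum_range_iff.2 s₁)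
  exact (hasSum_vil_mul hβ hβ (a - b) (a + b)).unique this

lemma gauss_complete {β γ : ℝ} (hβ : 0 < β) (hγ : 0 < γ) (x y : ℝ) :
    Real.exp (-γ * y ^ 2 / 2) * Real.exp (-β * (x - y) ^ 2 / 2)
      = Real.exp (-(β * γ / (β + γ)) * x ^ 2 / 2) *
        Real.exp (-((β + γ) / 2) * (y - β * x / (β + γ)) ^ 2) := by
  rw [← Real.exp_add, ← Real.exp_add]
  congr 1
  field_simp
  ring

lemma gauss_conv_integrable {β γ : ℝ} (hβ : 0 < β) (hγ : 0 < γ) (x : ℝ) :
    Integrable fun y : ℝ => Real.exp (-γ * y ^ 2 / 2) * Real.exp (-β * (x - y) ^ 2 / 2) := by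
  simp_rw [gauss_complete hβ hγ]
  exact ((integrable_exp_neg_mul_sq (b := (β + γ) / 2) (by positivity)).comp_sub_right _).const_mul _

lemma gauss_conv {β γ : ℝ} (hβ : 0 < β) (hγ : 0 < γ) (x : ℝ) :
    ∫ y : ℝ, Real.exp (-γ * y ^ 2 / 2) * Real.exp (-β * (x - y) ^ 2 / 2)
      = √(π / ((β + γ) / 2)) * Real.exp (-(β * γ / (β + γ)) * x ^ 2 / 2) := by
  simp_rw [gauss_complete hβ hγ]
  rw [integral_const_mul,
    integral_sub_right_eq_self (fun y : ℝ => Real.exp (-((β + γ) / 2) * y ^ 2)),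
    integral_gaussian, mul_comm]

/-- The semigroup property. -/
lemma vil_conv {β γ : ℝ} (hβ : 0 < β) (hγ : 0 < γ) (θ : ℝ) :
    ∫ y : ℝ, Real.exp (-γ * y ^ 2 / 2) * vil β (θ - y)
      = √(π / ((β + γ) / 2)) * vil (β * γ / (β + γ)) θ := by
  have h1 : 0 < β * γ / (β + γ) := by positivity
  set F : ℤ → ℝ → ℝ := fun k y =>
    Real.exp (-γ * y ^ 2 / 2) * Real.exp (-β * (θ + 2 * π * k - y) ^ 2 / 2) with hF
  have hint : ∀ k, Integrable (F k) := fun k => gauss_conv_integrable hβ hγ _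
  have hval : ∀ k, ∫ y, F k y = √(π / ((β + γ) / 2)) *
      Real.exp (-(β * γ / (β + γ)) * (θ + 2 * π * k) ^ 2 / 2) := fun k => gauss_conv hβ hγ _
  have hs : Summable fun k => ∫ y, ‖F k y‖ := by
    have : ∀ k, ∫ y, ‖F k y‖ = ∫ y, F k y := fun k => by
      refine integral_congr_ae (Eventually.of_forall fun y => ?_)
      exact Real.norm_of_nonneg (by simp only [hF]; positivity)
    simp_rw [this, hval]
    exact (summable_vil h1 θ).mul_left _
  have h2 := hasSum_integral_of_summable_integral_norm hint hs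
  simp_rw [hval] at h2
  have h3 := h2.unique ((summable_vil h1 θ).hasSum.mul_left _)
  unfold vil
  rw [← h3]
  refine integral_congr_ae (Eventually.of_forall fun y => ?_)
  simp only [hF]
  rw [tsum_mul_left]
  congr 1
  refine tsum_congr fun k => ?_
  congr 1; ring

end

end Pool.Agent.Lib.MP_533d58_pr
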