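import Pool.Agent.Lib.MP_533d58_pr.Ginibre
import Pool.Agent.Lib.MP_533d58_pr.Theta

/-!
The Villain edge weights satisfy the one-edge comparison inequalities.
-/

namespace Pool.Agent.Lib.MP_533d58_pr

open MeasureTheory Filter Topology Real
open scoped NNReal

noncomputable section

/-- Translation on the circle. -/
def tr (y : ℝ) : C(T, T) := ⟨fun x => x - (y : T), by fun_prop⟩

@[simp] lemma tr_apply (y : ℝ) (x : T) : tr y x = x - (y : T) := rfl

/-- The translate of a weight. -/
def shift (v : C(T, ℝ)) (y : ℝ) : C(T, ℝ) := v.comp (tr y)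

@[simp] lemma shift_apply (v : C(T, ℝ)) (y : ℝ) (x : T) : shift v y x = v (x - (y : T)) := rfl

lemma continuous_shift (v : C(T, ℝ)) : Continuous (shift v) := by
  refine ContinuousMap.continuous_of_continuous_uncurry _ ?_
  change Continuous fun z : ℝ × T => v (z.2 - (z.1 : T))
  have : Continuous fun y : ℝ => (y : T) := continuous_quotient_mk'
  fun_prop

lemma norm_shift_le (v : C(T, ℝ)) (y : ℝ) : ‖shift v y‖ ≤ ‖v‖ :=
  (ContinuousMap.norm_le _ (norm_nonneg _)).2 fun _ => v.norm_coe_le_norm _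

lemma integrable_shift (v : C(T, ℝ)) {u : ℝ → ℝ} (hu : Integrable u) :
    Integrable fun y => u y • shift v y := by
  refine (hu.norm.mul_const ‖v‖).mono' ?_ (Eventually.of_forall fun y => ?_)
  · exact hu.aestronglyMeasurable.smul (continuous_shift v).aestronglyMeasurable
  · rw [norm_smul]
    exact mul_le_mul_of_nonneg_left (norm_shift_le v y) (norm_nonneg _)

/-- Average of translates of a weight. -/
def conv (v : C(T, ℝ)) (u : ℝ → ℝ) : C(T, ℝ) := ∫ y, u y • shift v y

lemma conv_apply (v : C(T, ℝ)) {u : ℝ → ℝ} (hu : Integrable u) (x : T) :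
    conv v u x = ∫ y, u y * v (x - (y : T)) := by
  unfold conv
  rw [ContinuousMap.integral_apply (integrable_shift v hu)]
  rfl

variable {V : Type} [Fintype V]

/-- The comparison form as a functional of the second weight. -/
def cmpL (R : C(V → T, ℝ)) (s t a b : V) (v : C(T, ℝ)) : C(T, ℝ) →L[ℝ] ℝ :=
  wInt (obs a b * R) s t v • wInt R s t - wInt R s t v • wInt (obs a b * R) s t

lemma cmpL_apply (R : C(V → T, ℝ)) (s t a b : V) (v w : C(T, ℝ)) :
    cmpL R s t a b v w = cmp R s t a b v w := by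
  simp only [cmpL, cmp, sub_apply, smul_apply, smul_eq_mul]
  ring

lemma cmp_shift_nonneg {R : C(V → T, ℝ)} (hR : pair R R ∈ cone (V → T)) (s t a b : V)
    {v : C(T, ℝ)} (hv : pair v v ∈ cone T) (y : ℝ) :
    0 ≤ cmp R s t a b v (shift v y) + cmp R s t a b v (shift v (-y)) := by
  rw [← lam_pair, ← lam_pair, ← lam_add]
  have e : pair v (shift v y) - pair (shift v y) v + (pair v (shift v (-y)) - pair (shift v (-y)) v)
      = fourTerm (tr (y / 2)) (tr (-(y / 2))) (pair v v) := by
    have hy : (y : T) = ((y / 2 : ℝ) : T) + ((y / 2 : ℝ) : T) := by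
      rw [← QuotientAddGroup.mk_add]; congr 1; ring
    ext ⟨α, β⟩
    simp only [ContinuousMap.add_apply, ContinuousMap.sub_apply, pair_apply, shift_apply,
      fourTerm_apply, tr_apply, QuotientAddGroup.mk_neg, hy]
    set h : T := ((y / 2 : ℝ) : T)
    have e1 : α - h - (β - h) = α - β := by abel
    have e2 : α - h + (β - h) = α + β - (h + h) := by abel
    have e3 : α - h - (β - -h) = α - β - (h + h) := by abel
    have e4 : α - h + (β - -h) = α + β := by abel
    have e5 : α - -h - (β - h) = α - β - -(h + h) := by abel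
    have e6 : α - -h + (β - h) = α + β := by abel
    have e7 : α - -h - (β - -h) = α - β := by abel
    have e8 : α - -h + (β - -h) = α + β - -(h + h) := by abel
    rw [e1, e2, e3, e4, e5, e6, e7, e8]
    ring
  rw [e]
  exact lam_nonneg hR s t a b (fourTerm_mem _ _ hv)

lemma cmp_conv_nonneg {R : C(V → T, ℝ)} (hR : pair R R ∈ cone (V → T)) (s t a b : V)
    {v : C(T, ℝ)} (hv : pair v v ∈ cone T) {u : ℝ → ℝ} (hu : Integrable u) (h0 : ∀ y, 0 ≤ u y)
    (he : ∀ y, u (-y) = u y) : 0 ≤ cmp R s t a b v (conv v u) := by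
  rw [← cmpL_apply]
  unfold conv
  rw [← ContinuousLinearMap.integral_comp_comm _ (integrable_shift v hu)]
  have hint := (cmpL R s t a b v).integrable_comp (integrable_shift v hu)
  simp only [map_smul, smul_eq_mul, cmpL_apply] at hint ⊢
  have h1 := integral_neg_eq_self (fun y => u y * cmp R s t a b v (shift v y)) volume
  have hint' := hint.comp_neg
  simp only [he] at h1 hint'
  have h2 : 0 ≤ ∫ y, (u y * cmp R s t a b v (shift v y) + u y * cmp R s t a b v (shift v (-y))) := by
    refine integral_nonneg fun y => ?_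
    have := mul_nonneg (h0 y) (cmp_shift_nonneg hR s t a b hv y)
    simp only [Pi.zero_apply]
    linarith
  rw [integral_add hint hint', h1] at h2
  linarith

/-- The indicator function of one period. -/
def ind : ℝ → ℝ := Set.indicator (Set.Icc (-π) π) 1

lemma integrable_ind : Integrable ind :=
  (integrable_indicator_iff measurableSet_Icc).2 (integrableOn_const (by simp))

lemma ind_neg (y : ℝ) : ind (-y) = ind y := by
  unfold ind
  by_cases h : y ∈ Set.Icc (-π) π
  · have : -y ∈ Set.Icc (-π) π := ⟨by linarith [h.2], by linarith [h.1]⟩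
    simp [h, this]
  · have : -y ∉ Set.Icc (-π) π := fun h' => h ⟨by linarith [h'.2], by linarith [h'.1]⟩
    simp [h, this]

lemma ind_nonneg (y : ℝ) : 0 ≤ ind y := Set.indicator_nonneg (fun _ _ => zero_le_one) y

lemma conv_ind (v : C(T, ℝ)) : conv v ind = (∫ x, v x) • (1 : C(T, ℝ)) := by
  ext x
  rw [conv_apply v integrable_ind]
  have h1 : ∀ y : ℝ, ind y * v (x - (y : T))
      = Set.indicator (Set.Icc (-π) π) (fun y : ℝ => v (x - (y : T))) y := fun y => by
    unfold ind
    by_cases h : y ∈ Set.Icc (-π) π <;> simp [h]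
  simp_rw [h1]
  rw [integral_indicator measurableSet_Icc, integral_Icc_eq_integral_Ioc]
  have h2 := AddCircle.integral_preimage (2 * π) (-π) (fun y : T => v (x - y))
  rw [show -π + 2 * π = π by ring] at h2
  rw [h2, integral_sub_left_eq_self (fun y : T => v y)]
  simp

lemma integral_T_pos {v : C(T, ℝ)} (hv : ∀ x, 0 < v x) : 0 < ∫ x, v x := by
  rw [integral_pos_iff_support_of_nonneg (fun θ => (hv θ).le) (integrable_cm _ v)]
  have : Function.support (fun θ => v θ) = Set.univ := by
    ext θ; simp [(hv θ).ne']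
  rw [this]
  exact isOpen_univ.measure_pos _ Set.univ_nonempty

lemma cmp_one_nonneg {R : C(V → T, ℝ)} (hR : pair R R ∈ cone (V → T)) (s t a b : V)
    {v : C(T, ℝ)} (hv : pair v v ∈ cone T) (hpos : ∀ x, 0 < v x) : 0 ≤ cmp R s t a b v 1 := by
  have h := cmp_conv_nonneg hR s t a b hv integrable_ind ind_nonneg ind_neg
  rw [conv_ind, ← cmpL_apply, map_smul, cmpL_apply, smul_eq_mul] at h
  exact (mul_nonneg_iff_of_pos_left (integral_T_pos hpos)).1 h

/-- The periodised Gaussian on the circle. -/
def vilC (β : ℝ) (hβ : 0 < β) : C(T, ℝ) := liftC (vil β) (continuous_vil hβ) (periodic_vil β)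

@[simp] lemma vilC_coe (β : ℝ) (hβ : 0 < β) (x : ℝ) : vilC β hβ (x : T) = vil β x := rfl

lemma vilC_pos (β : ℝ) (hβ : 0 < β) (x : T) : 0 < vilC β hβ x := by
  induction x using QuotientAddGroup.induction_on
  exact vil_pos hβ _

lemma vilC_gin (β : ℝ) (hβ : 0 < β) : pair (vilC β hβ) (vilC β hβ) ∈ cone T := by
  have h2 : 0 < 2 * β := by positivity
  have e : pair (vilC β hβ) (vilC β hβ)
      = tens (vilC (2 * β) h2) + tens (shift (vilC (2 * β) h2) (-π)) := by
    ext ⟨x, y⟩
    induction x using QuotientAddGroup.induction_on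
    induction y using QuotientAddGroup.induction_on
    simp only [pair_apply, ContinuousMap.add_apply, tens_apply, shift_apply,
      ← QuotientAddGroup.mk_sub, ← QuotientAddGroup.mk_add, vilC_coe, sub_neg_eq_add]
    exact vil_mul_vil hβ _ _
  rw [e]
  exact (cone T).add_mem (tens_mem _) (tens_mem _)

lemma integrable_gauss {γ : ℝ} (hγ : 0 < γ) : Integrable fun y : ℝ => Real.exp (-γ * y ^ 2 / 2) := by
  have := integrable_exp_neg_mul_sq (b := γ / 2) (by positivity)
  refine this.congr (Eventually.of_forall fun y => ?_)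
  simp only
  congr 1; ring

lemma conv_gauss {β γ : ℝ} (hβ : 0 < β) (hγ : 0 < γ) :
    conv (vilC β hβ) (fun y => Real.exp (-γ * y ^ 2 / 2))
      = √(π / ((β + γ) / 2)) • vilC (β * γ / (β + γ)) (by positivity) := by
  ext x
  induction x using QuotientAddGroup.induction_on
  rw [conv_apply _ (integrable_gauss hγ)]
  simp only [← QuotientAddGroup.mk_sub, vilC_coe, ContinuousMap.smul_apply, smul_eq_mul]
  exact vil_conv hβ hγ _

lemma conv_sub_smul (v : C(T, ℝ)) {u u' : ℝ → ℝ} (hu : Integrable u) (hu' : Integrable u')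
    (m : ℝ) : conv v (fun y => u y - m * u' y) = conv v u - m • conv v u' := by
  unfold conv
  have hm : Integrable fun y => m • u' y • shift v y := (integrable_shift v hu').smul m
  rw [← integral_smul, ← integral_sub (integrable_shift v hu) hm]
  refine integral_congr_ae (Eventually.of_forall fun y => ?_)
  simp only [sub_smul, mul_smul]

lemma villain_key {β₁ β₂ : ℝ} (h1 : 0 < β₁) (h2 : 0 < β₂) (h : β₁ < β₂) :
    ∃ c : ℝ, 0 < c ∧ ∀ (V : Type) [Fintype V] (R : C(V → T, ℝ)), pair R R ∈ cone (V → T) →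
      ∀ s t a b : V, c * cmp R s t a b (vilC β₂ h2) 1 ≤ cmp R s t a b (vilC β₂ h2) (vilC β₁ h1) := by
  set γ : ℝ := β₁ * β₂ / (β₂ - β₁) with hγ
  have hd : 0 < β₂ - β₁ := by linarith
  have hγpos : 0 < γ := by positivity
  have hb : β₂ * γ / (β₂ + γ) = β₁ := by
    rw [hγ]; field_simp; ring
  set m : ℝ := Real.exp (-γ * π ^ 2 / 2) with hm
  have hmpos : 0 < m := Real.exp_pos _
  set c₀ : ℝ := √(π / ((β₂ + γ) / 2)) with hc₀
  have hc₀pos : 0 < c₀ := by positivity
  have hI := integral_T_pos (vilC_pos β₂ h2)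
  refine ⟨m * (∫ x, vilC β₂ h2 x) / c₀, by positivity, fun V _ R hR s t a b => ?_⟩
  have h3 := cmp_conv_nonneg hR s t a b (vilC_gin β₂ h2)
    (u := fun y => Real.exp (-γ * y ^ 2 / 2) - m * ind y)
    ((integrable_gauss hγpos).sub (integrable_ind.const_mul m)) (fun y => ?_) (fun y => ?_)
  · rw [conv_sub_smul _ (integrable_gauss hγpos) integrable_ind, conv_ind, conv_gauss h2 hγpos,
      ← cmpL_apply, map_sub, map_smul, map_smul, map_smul, cmpL_apply, cmpL_apply] at h3
    simp only [hb, smul_eq_mul, ← hc₀] at h3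
    rw [div_mul_eq_mul_div, div_le_iff₀ hc₀pos]
    linarith
  · unfold ind
    by_cases hy : y ∈ Set.Icc (-π) π
    · simp only [Set.indicator_of_mem hy, Pi.one_apply, mul_one, sub_nonneg, hm]
      apply Real.exp_le_exp.2
      have : y ^ 2 ≤ π ^ 2 := sq_le_sq' hy.1 hy.2
      nlinarith
    · simp only [Set.indicator_of_notMem hy, mul_zero, sub_zero]
      positivity
  · simp only [ind_neg, neg_sq]

/-- The Villain weight on the circle (constant at `β = 0`). -/
def vilW (β : ℝ) : C(T, ℝ) := if h : 0 < β then vilC β h else 1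

lemma vilW_pos (β : ℝ) (x : T) : 0 < vilW β x := by
  unfold vilW
  split_ifs with h
  · exact vilC_pos β h x
  · simp

lemma vilW_gin (β : ℝ) : pair (vilW β) (vilW β) ∈ cone T := by
  unfold vilW
  split_ifs with h
  · exact vilC_gin β h
  · have : pair (1 : C(T, ℝ)) 1 = 1 := by ext z; simp
    rw [this]; exact (cone T).one_mem

theorem good_villain : Good (fun β : ℝ≥0 => vilW β) where
  pos β x := vilW_pos _ _
  gin β := vilW_gin _
  mono0 β V _ R hR hpos s t a b :=
    ratio_le_of_cmp hpos s t a b (vilW_pos _) (fun _ => one_pos)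
      (cmp_one_nonneg hR s t a b (vilW_gin _) (vilW_pos _))
  key β₁ β₂ h := by
    have h' : (β₁ : ℝ) < β₂ := h
    have h2 : (0 : ℝ) < β₂ := lt_of_le_of_lt β₁.coe_nonneg h'
    by_cases h1 : (0 : ℝ) < β₁
    · obtain ⟨c, hc, hK⟩ := villain_key h1 h2 h'
      refine ⟨(‖vilC β₁ h1‖ + 1) / c, by positivity, fun V _ R hR hpos s t a b => ?_⟩
      have h3 := hK V R hR s t a b
      have h4 := cmp_one_nonneg hR s t a b (vilC_gin β₂ h2) (vilC_pos β₂ h2)
      have h5 := ratio_le_of_cmp hpos s t a b (vilC_pos β₂ h2) (vilC_pos β₁ h1)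
        ((mul_nonneg hc.le h4).trans h3)
      rw [cmp_eq hpos s t a b (vilC_pos _ _) (vilC_pos _ _),
        cmp_eq hpos s t a b (vilC_pos _ _) (fun _ => one_pos)] at h3
      have z0 := wInt_pos hpos s t (v := 1) (fun _ => one_pos)
      have z2 := wInt_pos hpos s t (vilC_pos β₂ h2)
      have z1 := wInt_le hpos s t (vilC β₁ h1)
      simp only [vilW, dif_pos h1, dif_pos h2]
      set Z0 := wInt R s t 1
      set Z1 := wInt R s t (vilC β₁ h1)
      set Z2 := wInt R s t (vilC β₂ h2)
      set a0 := ratio R s t a b 1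
      set a1 := ratio R s t a b (vilC β₁ h1)
      set a2 := ratio R s t a b (vilC β₂ h2)
      set M := ‖vilC β₁ h1‖
      have hM : 0 ≤ M := norm_nonneg _
      have h6 : c * (Z0 * (a2 - a0)) ≤ Z1 * (a2 - a1) := by
        have : Z2 * (c * (Z0 * (a2 - a0))) ≤ Z2 * (Z1 * (a2 - a1)) := by nlinarith
        exact le_of_mul_le_mul_left this z2
      have h7 : Z1 * (a2 - a1) ≤ (M + 1) * Z0 * (a2 - a1) :=
        mul_le_mul_of_nonneg_right (by nlinarith) (by linarith)
      have h8 : Z0 * (c * (a2 - a0)) ≤ Z0 * ((M + 1) * (a2 - a1)) := by nlinarith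
      have h9 := le_of_mul_le_mul_left h8 z0
      rw [div_mul_eq_mul_div, le_div_iff₀ hc]
      nlinarith
    · refine ⟨1, one_pos, fun V _ R hR hpos s t a b => ?_⟩
      have := ratio_le_of_cmp hpos s t a b (vilW_pos β₂) (fun _ => one_pos)
        (cmp_one_nonneg hR s t a b (vilW_gin _) (vilW_pos _))
      simp only [vilW, dif_neg h1] at this ⊢
      linarith

end

end Pool.Agent.Lib.MP_533d58_pr
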