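import Pool.Agent.Lib.MP_533d58_pr.Ginibre

/-!
The XY edge weights satisfy the one-edge comparison inequalities.
-/

namespace Pool.Agent.Lib.MP_533d58_pr

open MeasureTheory Filter Topology Real
open scoped NNReal

noncomputable section

/-- The XY weight on the circle. -/
def xyW (J : ℝ) : C(T, ℝ) := post Real.exp Real.continuous_exp (J • cosT)

lemma xyW_apply (J : ℝ) (x : T) : xyW J x = Real.exp (J * cosT x) := rfl

lemma xyW_zero : xyW 0 = 1 := by ext x; simp [xyW_apply]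

lemma xyW_pos (J : ℝ) (x : T) : 0 < xyW J x := Real.exp_pos _

lemma pair_xy_self (J : ℝ) :
    pair (xyW J) (xyW J) = post Real.exp Real.continuous_exp ((2 * J) • tens cosT) := by
  ext ⟨x, y⟩
  simp only [pair_apply, xyW_apply, post_apply, ContinuousMap.smul_apply, tens_apply, smul_eq_mul,
    cosT_sub, cosT_add, ← Real.exp_add]
  congr 1; ring

lemma pair_xy_sub (J₁ J₂ : ℝ) :
    pair (xyW J₂) (xyW J₁) - pair (xyW J₁) (xyW J₂)
      = (2 : ℝ) • (post Real.exp Real.continuous_exp ((J₁ + J₂) • tens cosT) *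
        post Real.sinh Real.continuous_sinh ((J₂ - J₁) • tens sinT)) := by
  ext ⟨x, y⟩
  simp only [pair_apply, xyW_apply, post_apply, ContinuousMap.smul_apply, tens_apply, smul_eq_mul,
    cosT_sub, cosT_add, ← Real.exp_add, ContinuousMap.sub_apply, ContinuousMap.mul_apply,
    Real.sinh_eq]
  have e1 : J₂ * (cosT x * cosT y + sinT x * sinT y) + J₁ * (cosT x * cosT y - sinT x * sinT y)
      = (J₁ + J₂) * (cosT x * cosT y) + (J₂ - J₁) * (sinT x * sinT y) := by ring
  have e2 : J₁ * (cosT x * cosT y + sinT x * sinT y) + J₂ * (cosT x * cosT y - sinT x * sinT y)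
      = (J₁ + J₂) * (cosT x * cosT y) + -((J₂ - J₁) * (sinT x * sinT y)) := by ring
  rw [e1, e2, Real.exp_add, Real.exp_add]
  ring

lemma pair_xy_sub_mem {J₁ J₂ : ℝ} (h1 : 0 ≤ J₁) (h : J₁ ≤ J₂) :
    pair (xyW J₂) (xyW J₁) - pair (xyW J₁) (xyW J₂) ∈ cone T := by
  rw [pair_xy_sub]
  exact smul_mem (by norm_num) ((cone T).mul_mem
    (exp_mem (smul_mem (by linarith) (tens_mem _))) (sinh_mem (smul_mem (by linarith) (tens_mem _))))

lemma xy_key_kernel {J₁ J₂ : ℝ} (h1 : 0 ≤ J₁) (h : J₁ < J₂) :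
    ∃ c : ℝ, 0 < c ∧ (pair (xyW J₂) (xyW J₁) - pair (xyW J₁) (xyW J₂))
      - c • (pair (xyW J₁) (xyW 0) - pair (xyW 0) (xyW J₁)) ∈ cone T := by
  have h2 : 0 < J₂ := lt_of_le_of_lt h1 h
  set τ : ℝ := (J₂ ^ 2 - J₁ ^ 2) / J₂ ^ 2 with hτ
  have hsq : J₁ ^ 2 < J₂ ^ 2 := by nlinarith
  have hτpos : 0 < τ := div_pos (by linarith) (by positivity)
  have hτle : J₁ ^ 2 * (1 + τ) ≤ J₂ ^ 2 := by
    have : J₁ ^ 2 * τ ≤ J₂ ^ 2 * τ := by gcongr
    have e : J₂ ^ 2 * τ = J₂ ^ 2 - J₁ ^ 2 := by rw [hτ]; field_simp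
    linarith
  set κ : ℝ := J₁ * (1 + τ⁻¹) with hκ
  have hκ0 : 0 ≤ κ := by positivity
  have hκ2 : J₁ ^ 2 * (1 + τ⁻¹) ≤ κ ^ 2 := by
    have h3 : 0 < τ⁻¹ := inv_pos.2 hτpos
    have : κ ^ 2 = J₁ ^ 2 * (1 + τ⁻¹) * (1 + τ⁻¹) := by rw [hκ]; ring
    rw [this]
    exact le_mul_of_one_le_right (by positivity) (by linarith)
  set S : C(T × T, ℝ) := tens cosT with hS
  set D : C(T × T, ℝ) := tens sinT with hD
  have hSm : S ∈ cone T := tens_mem _
  have hDm : D ∈ cone T := tens_mem _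
  set Z : C(T × T, ℝ) := κ • 1 + J₂ • S with hZ
  have hZm : Z ∈ cone T := (cone T).add_mem (smul_mem hκ0 (cone T).one_mem) (smul_mem h2.le hSm)
  have hsq' : Z ^ 2 - (J₁ • D) ^ 2 ∈ cone T := by
    have e : Z ^ 2 - (J₁ • D) ^ 2
        = (κ ^ 2 - J₁ ^ 2 * (1 + τ⁻¹)) • 1 + (2 * κ * J₂) • S
          + (J₂ ^ 2 - J₁ ^ 2 * (1 + τ)) • S ^ 2
          + (J₁ ^ 2 * τ) • tens (τ⁻¹ • 1 + cosT ^ 2) := by
      ext ⟨x, y⟩
      simp only [hZ, hS, hD, ContinuousMap.sub_apply, ContinuousMap.pow_apply,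
        ContinuousMap.add_apply, ContinuousMap.smul_apply, ContinuousMap.one_apply, tens_apply,
        smul_eq_mul, mul_pow, sinT_sq]
      field_simp
      ring
    rw [e]
    refine (cone T).add_mem ((cone T).add_mem ((cone T).add_mem ?_ ?_) ?_) ?_
    · exact smul_mem (by linarith) (cone T).one_mem
    · exact smul_mem (by positivity) hSm
    · exact smul_mem (by linarith) ((cone T).pow_mem hSm 2)
    · exact smul_mem (by positivity) (tens_mem _)
  have hA := sinh_le_mul_exp (smul_mem h1 hDm) hZm hsq'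
  have hB := sinh_sub_mem (smul_mem (sub_nonneg.2 h.le) hDm)
  have hE1 := exp_mem (smul_mem h1 hSm)
  have hE12 := exp_mem (smul_mem (add_nonneg h1 h2.le) hSm)
  set c : ℝ := (J₂ - J₁) / (J₁ * Real.exp κ + 1) with hc
  have hcpos : 0 < c := div_pos (by linarith) (by positivity)
  have hc2 : 0 ≤ (J₂ - J₁) - c * (J₁ * Real.exp κ) := by
    have e : c * (J₁ * Real.exp κ + 1) = J₂ - J₁ := by rw [hc]; field_simp
    nlinarith
  refine ⟨c, hcpos, ?_⟩
  rw [pair_xy_sub, pair_xy_sub]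
  have e : (2 : ℝ) • (post Real.exp Real.continuous_exp ((J₁ + J₂) • S) *
        post Real.sinh Real.continuous_sinh ((J₂ - J₁) • D))
      - c • (2 : ℝ) • (post Real.exp Real.continuous_exp ((0 + J₁) • S) *
        post Real.sinh Real.continuous_sinh ((J₁ - 0) • D))
      = (2 : ℝ) • (post Real.exp Real.continuous_exp ((J₁ + J₂) • S) *
          (post Real.sinh Real.continuous_sinh ((J₂ - J₁) • D) - (J₂ - J₁) • D)
        + ((J₂ - J₁) - c * (J₁ * Real.exp κ)) •
          (post Real.exp Real.continuous_exp ((J₁ + J₂) • S) * D)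
        + c • (post Real.exp Real.continuous_exp (J₁ • S) *
          (J₁ • D * post Real.exp Real.continuous_exp Z
            - post Real.sinh Real.continuous_sinh (J₁ • D)))) := by
    ext z
    simp only [hZ, ContinuousMap.sub_apply, ContinuousMap.add_apply, ContinuousMap.smul_apply,
      ContinuousMap.one_apply, ContinuousMap.mul_apply, post_apply, smul_eq_mul, zero_add,
      sub_zero, add_mul, Real.exp_add, mul_one]
    ring
  rw [e]
  refine smul_mem (by norm_num) ((cone T).add_mem ((cone T).add_mem ?_ ?_) ?_)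
  · exact (cone T).mul_mem hE12 hB
  · exact smul_mem hc2 ((cone T).mul_mem hE12 hDm)
  · exact smul_mem hcpos.le ((cone T).mul_mem hE1 hA)

theorem good_xy : Good (fun β : ℝ≥0 => xyW β) where
  pos β x := xyW_pos _ _
  gin β := by
    rw [pair_xy_self]
    exact exp_mem (smul_mem (by positivity) (tens_mem _))
  mono0 β V _ R hR hpos s t a b := by
    refine ratio_le_of_cmp hpos s t a b (xyW_pos _) (fun _ => one_pos) ?_
    rw [← lam_pair, ← xyW_zero]
    exact lam_nonneg hR s t a b (pair_xy_sub_mem le_rfl β.coe_nonneg)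
  key β₁ β₂ h := by
    obtain ⟨c, hc, hK⟩ := xy_key_kernel β₁.coe_nonneg (show (β₁ : ℝ) < β₂ from h)
    refine ⟨(‖xyW β₂‖ + 1) / c, by positivity, fun V _ R hR hpos s t a b => ?_⟩
    have h1 := lam_nonneg hR s t a b hK
    rw [lam_sub_smul, lam_pair, lam_pair, xyW_zero,
      cmp_eq hpos s t a b (xyW_pos _) (xyW_pos _),
      cmp_eq hpos s t a b (xyW_pos _) (fun _ => one_pos)] at h1
    have h2 : ratio R s t a b (xyW β₁) ≤ ratio R s t a b (xyW β₂) := by
      refine ratio_le_of_cmp hpos s t a b (xyW_pos _) (xyW_pos _) ?_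
      rw [← lam_pair]
      exact lam_nonneg hR s t a b (pair_xy_sub_mem β₁.coe_nonneg (show (β₁ : ℝ) ≤ β₂ from h.le))
    have z0 := wInt_pos hpos s t (v := 1) (fun _ => one_pos)
    have z1 := wInt_pos hpos s t (xyW_pos β₁)
    have z2 := wInt_le hpos s t (xyW β₂)
    set Z0 := wInt R s t 1
    set Z1 := wInt R s t (xyW β₁)
    set Z2 := wInt R s t (xyW β₂)
    set a0 := ratio R s t a b 1
    set a1 := ratio R s t a b (xyW β₁)
    set a2 := ratio R s t a b (xyW β₂)
    set M := ‖xyW β₂‖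
    have hM : 0 ≤ M := norm_nonneg _
    have h3 : c * (Z0 * (a1 - a0)) ≤ Z2 * (a2 - a1) := by
      have : Z1 * (c * (Z0 * (a1 - a0))) ≤ Z1 * (Z2 * (a2 - a1)) := by nlinarith
      exact le_of_mul_le_mul_left this z1
    have h4 : Z2 * (a2 - a1) ≤ (M + 1) * Z0 * (a2 - a1) :=
      mul_le_mul_of_nonneg_right (by nlinarith) (by linarith)
    have h5 : Z0 * (c * (a1 - a0)) ≤ Z0 * ((M + 1) * (a2 - a1)) := by nlinarith
    have h6 := le_of_mul_le_mul_left h5 z0
    rw [div_mul_eq_mul_div, le_div_iff₀ hc]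
    linarith

end

end Pool.Agent.Lib.MP_533d58_pr
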